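import Mathlib
import Pool.Agent.Lib.MP_0016c7_nt.PC.GStm

set_option autoImplicit false

/-!
Project PrimeConductors, block [G]: the energy of the total limit kernel.
-/

open Finset MeasureTheory Filter Topology
open scoped Real ContDiff

namespace Pool.Agent.MP0016c7.PC

open Pool.Agent.MP0016c7.Rz

/-! ### continuity of the kernels -/

private theorem gen_c1 {Γ : ℝ → ℝ → ℝ} (hΓ : Continuous (fun p : ℝ × ℝ => Γ p.1 p.2))
    {f g : ℝ × ℝ → ℝ} (hf : Continuous f) (hg : Continuous g) :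
    Continuous (fun p => Γ (f p) (g p)) := hΓ.comp (hf.prodMk hg)

private theorem gen_c2 {Γ : ℝ → ℝ → ℝ} (hΓ : Continuous (fun p : ℝ × ℝ => Γ p.1 p.2))
    (c₀ c₁ c₂ τ σ e₀ e₁ e₂ τ' σ' : ℝ) :
    Continuous (fun p : ℝ × ℝ => GG Γ c₀ c₁ c₂ τ σ e₀ e₁ e₂ τ' σ' (1 / 2 - p.1) (1 / 2 - p.2)) := by
  unfold GG cmb
  refine ((continuous_const.mul ?_).add (continuous_const.mul ?_)).add (continuous_const.mul ?_)
  all_goals
    refine ((continuous_const.mul ?_).add (continuous_const.mul ?_)).add (continuous_const.mul ?_)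
  all_goals exact gen_c1 hΓ (by fun_prop) (by fun_prop)

private theorem gen_c3 {Γ : ℝ → ℝ → ℝ} (hΓ : Continuous (fun p : ℝ × ℝ => Γ p.1 p.2))
    (r t lam κ' τ σ τ' σ' : ℝ) :
    Continuous (fun p : ℝ × ℝ => XX Γ r t lam κ' τ σ τ' σ' (1 / 2 - p.1) (1 / 2 - p.2)) := by
  unfold XX
  exact (((gen_c2 hΓ _ _ _ _ _ _ _ _ _ _).add
    (continuous_const.mul (gen_c2 hΓ _ _ _ _ _ _ _ _ _ _))).add
    (continuous_const.mul (gen_c2 hΓ _ _ _ _ _ _ _ _ _ _))).add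
    (continuous_const.mul (gen_c2 hΓ _ _ _ _ _ _ _ _ _ _))

private theorem gen_cm : Continuous (fun p : ℝ × ℝ => mnp p.1 p.2) := by
  unfold mnp
  fun_prop

/-! ### the functional -/

private theorem gen_congr {w u₁ u₂ : ℝ → ℝ} {g₁ g₂ V : ℝ} (hV : 0 ≤ V) {C C' : ℝ → ℝ → ℝ}
    (h : ∀ v ∈ Set.Icc 0 V, ∀ v' ∈ Set.Icc 0 V, C v v' = C' v v') :
    BCk w u₁ u₂ g₁ g₂ V C = BCk w u₁ u₂ g₁ g₂ V C' := by
  have hI : Set.uIcc 0 V = Set.Icc 0 V := Set.uIcc_of_le hV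
  have e1 : (∫ v in (0 : ℝ)..V, w v * C v v) = ∫ v in (0 : ℝ)..V, w v * C' v v := by
    refine intervalIntegral.integral_congr fun v hv => ?_
    rw [hI] at hv
    rw [h v hv v hv]
  have e2 : ∀ u : ℝ → ℝ, (∫ v in (0 : ℝ)..V, ∫ v' in (0 : ℝ)..V, u v * u v' * C v v') =
      ∫ v in (0 : ℝ)..V, ∫ v' in (0 : ℝ)..V, u v * u v' * C' v v' := by
    intro u
    refine intervalIntegral.integral_congr fun v hv => ?_
    rw [hI] at hv
    refine intervalIntegral.integral_congr fun v' hv' => ?_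
    rw [hI] at hv'
    rw [h v hv v' hv']
  unfold BCk
  rw [e1, e2, e2]

private theorem gen_sq (w u₁ u₂ : ℝ → ℝ) (g₁ g₂ V : ℝ) (e : ℝ → ℝ) :
    BCk w u₁ u₂ g₁ g₂ V (fun v v' => e v * e v') = qP w u₁ u₂ g₁ g₂ V e := by
  have e2 : ∀ u : ℝ → ℝ, (∫ v in (0 : ℝ)..V, ∫ v' in (0 : ℝ)..V, u v * u v' * (e v * e v')) =
      (∫ v in (0 : ℝ)..V, u v * e v) ^ 2 := by
    intro u
    have h1 : ∀ v, (∫ v' in (0 : ℝ)..V, u v * u v' * (e v * e v')) =
        (u v * e v) * ∫ v' in (0 : ℝ)..V, u v' * e v' := by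
      intro v
      rw [← intervalIntegral.integral_const_mul]
      congr 1
      funext v'
      ring
    simp only [h1]
    rw [intervalIntegral.integral_mul_const, sq]
  unfold BCk qP
  rw [e2, e2]
  congr 3
  funext v
  ring

private theorem gen_Kq {w u₁ u₂ : ℝ → ℝ} {g₁ g₂ : ℝ} (hwp : ∀ v, 0 < w v) (hg₁ : 0 ≤ g₁)
    (hg₂ : 0 ≤ g₂) {u : ℝ} (hu : 0 ≤ u) : 0 ≤ Kq w u₁ u₂ g₁ g₂ u := by
  unfold Kq
  have h1 : 0 ≤ ∫ v in (0 : ℝ)..u, w v :=
    intervalIntegral.integral_nonneg hu fun v _ => (hwp v).le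
  positivity

theorem p_G_en (h1 : G_lin) (h2 : G_gam) (h3 : G_lev) (h4 : G_xx) : G_en := by
  intro J δ κ hδ hδ' hκ ρ hρ hρ0 hρ1 w u₁ u₂ e g₁ g₂ B₁ B₂ t lam ν hw hwp hu₁ hu₂ he hg₁ hg₂
    hB₁ hB₂ ht hlam hlam1 hr τ σ hτσ s Sm S₁ hSm hS₁ κ' hκ' hκκ
  set r : ℝ := 1 - t * lam ^ 2 + (t - 1) * ν ^ 2 with hrdef
  have hV : (0 : ℝ) ≤ 1 / 2 + δ := by linarith
  obtain ⟨lin, linR, -, lin4⟩ := h1 w u₁ u₂ g₁ g₂ (1 / 2 + δ) hw hu₁ hu₂ hV
  obtain ⟨hW0, lbd⟩ := lin4 hwp hg₁ hg₂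
  obtain ⟨gc, gb, -⟩ := h2 δ ρ hδ hρ hρ0 hρ1
  obtain ⟨x1, x2, x3⟩ := h4
  have ht0 : 0 ≤ t := by linarith
  set W : ℝ := WW w u₁ u₂ g₁ g₂ (1 / 2 + δ) with hWdef
  set c : ℝ := 5 + 4 * r + 4 * t * κ' with hcdef
  have hc0 : 0 ≤ c := by
    have : 0 ≤ t * κ' := mul_nonneg ht0 hκ'
    rw [hcdef]; nlinarith
  set Kij : ℕ → ℕ → ℝ → ℝ → ℝ := fun i j v v' =>
    XX (Gam2 ρ ρ) r t lam κ' (τ i) (σ i) (τ j) (σ j) (1 / 2 - v) (1 / 2 - v') with hKij
  have hKc : ∀ i j, Continuous (fun p : ℝ × ℝ => Kij i j p.1 p.2) := fun i j =>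
    gen_c3 gc _ _ _ _ _ _ _ _
  -- linearity
  have hlin : BCk w u₁ u₂ g₁ g₂ (1 / 2 + δ) (fun v v' => e v * e v' +
      ∑ i ∈ range J, ∑ j ∈ range J, Sm i j * Kij i j v v') =
      qP w u₁ u₂ g₁ g₂ (1 / 2 + δ) e +
        ∑ i ∈ range J, ∑ j ∈ range J, Sm i j * BCk w u₁ u₂ g₁ g₂ (1 / 2 + δ) (Kij i j) := by
    have hrow : ∀ i, Continuous (fun p : ℝ × ℝ => ∑ j ∈ range J, Sm i j * Kij i j p.1 p.2) :=
      fun i => continuous_finsetSum _ fun j _ => continuous_const.mul (hKc i j)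
    have hrow2 : Continuous (fun p : ℝ × ℝ =>
        ∑ i ∈ range J, ∑ j ∈ range J, Sm i j * Kij i j p.1 p.2) :=
      continuous_finsetSum _ fun i _ => hrow i
    have hee : Continuous (fun p : ℝ × ℝ => e p.1 * e p.2) := by fun_prop
    have l1 := lin 1 1 (fun v v' => e v * e v')
      (fun v v' => ∑ i ∈ range J, ∑ j ∈ range J, Sm i j * Kij i j v v') hee hrow2
    simp only [one_mul] at l1
    rw [l1, gen_sq]
    congr 1
    have l2 := linR J (fun _ => 1) (fun i v v' => ∑ j ∈ range J, Sm i j * Kij i j v v') hrow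
    simp only [one_mul] at l2
    rw [l2]
    refine Finset.sum_congr rfl fun i _ => ?_
    exact linR J (fun j => Sm i j) (fun j => Kij i j) (hKc i)
  -- the difference to the exact Brownian kernel
  have hdiff : ∀ i j, ∀ v ∈ Set.Icc 0 (1 / 2 + δ), ∀ v' ∈ Set.Icc 0 (1 / 2 + δ),
      |Kij i j v v' - XX mnp r t lam κ' (τ i) (σ i) (τ j) (σ j) (1 / 2 - v) (1 / 2 - v')| ≤
        c * (3 / 2 * δ) := by
    intro i j v hv v' hv'
    exact x2 r t lam κ' (τ i) (σ i) (τ j) (σ j) (1 / 2 - v) (1 / 2 - v') (3 / 2 * δ)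
      (Gam2 ρ ρ) mnp hr ht0 hκ' hlam hlam1 (by linarith [hv.1]) (by linarith [hv'.1]) gb
  -- off-diagonal kernels
  have hoff : ∀ i j, |BCk w u₁ u₂ g₁ g₂ (1 / 2 + δ) (Kij i j)| ≤ c * W := by
    intro i j
    refine lbd c (Kij i j) (hKc i j) fun v hv v' hv' => ?_
    have a1 := hdiff i j v hv v' hv'
    have a2 := x3 r t lam κ' (τ i) (σ i) (τ j) (σ j) (1 / 2 - v) (1 / 2 - v') hr ht0 hκ' hlam
      hlam1 (by linarith [hv.1]) (by linarith [hv'.1])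
    have a3 := abs_add_le (Kij i j v v' -
      XX mnp r t lam κ' (τ i) (σ i) (τ j) (σ j) (1 / 2 - v) (1 / 2 - v'))
      (XX mnp r t lam κ' (τ i) (σ i) (τ j) (σ j) (1 / 2 - v) (1 / 2 - v'))
    rw [sub_add_cancel] at a3
    have a4 : c * (3 / 2 * δ) + c * (1 / 2) ≤ c := by nlinarith
    change |XX mnp r t lam κ' (τ i) (σ i) (τ j) (σ j) (1 / 2 - v) (1 / 2 - v')| ≤ c * (1 / 2) at a2
    linarith
  -- integrals of `Kq`
  have hint : ∀ a b, 0 ≤ a → a ≤ b → 0 ≤ ∫ u in a..b, Kq w u₁ u₂ g₁ g₂ u := by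
    intro a b ha hab
    exact intervalIntegral.integral_nonneg hab fun u hu => gen_Kq hwp hg₁ hg₂ (ha.trans hu.1)
  -- diagonal kernels
  set Ki : ℕ → ℝ := fun i => Kint (Kq w u₁ u₂ g₁ g₂) (r + t * κ * lam ^ 2) (t * κ) (1 / 2 - τ i)
    (min (1 / 2) (1 / 2 - σ i)) with hKi
  have hmin : ∀ i, min (1 / 2 : ℝ) (1 / 2 - σ i) = 1 / 2 - max (σ i) 0 := by
    intro i
    rcases le_total (σ i) 0 with h | h
    · rw [max_eq_right h, min_eq_left (by linarith)]; ring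
    · rw [max_eq_left h, min_eq_right (by linarith)]
  have hKi0 : ∀ i < J, 0 ≤ Ki i := by
    intro i hi
    obtain ⟨b1, b2, b3⟩ := hτσ i hi
    have b4 : max (σ i) 0 ≤ τ i := max_le b1 b2
    have b5 : 0 ≤ max (σ i) 0 := le_max_right _ _
    simp only [hKi, Kint]
    rw [hmin i]
    have i1 := hint 0 (1 / 2 - τ i) le_rfl (by linarith)
    have i2 := hint (1 / 2 - τ i) (1 / 2 - max (σ i) 0) (by linarith) (by linarith)
    have i3 := hint (1 / 2 - max (σ i) 0) (1 / 2) (by linarith) (by linarith)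
    have c1 : 0 ≤ t * κ := mul_nonneg ht0 hκ
    have c2 : 0 ≤ r + t * κ * lam ^ 2 := by positivity
    positivity
  have hdiag : ∀ i < J, BCk w u₁ u₂ g₁ g₂ (1 / 2 + δ) (Kij i i) ≤ Ki i + c * (3 / 2 * δ) * W := by
    intro i hi
    obtain ⟨b1, b2, b3⟩ := hτσ i hi
    have b4 : max (σ i) 0 ≤ τ i := max_le b1 b2
    have b5 : 0 ≤ max (σ i) 0 := le_max_right _ _
    set M : ℝ → ℝ → ℝ := fun v v' =>
      XX mnp r t lam κ' (τ i) (σ i) (τ i) (σ i) (1 / 2 - v) (1 / 2 - v') with hM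
    have hMc : Continuous (fun p : ℝ × ℝ => M p.1 p.2) := gen_c3 gen_cm _ _ _ _ _ _ _ _
    have hD : BCk w u₁ u₂ g₁ g₂ (1 / 2 + δ) (fun v v' => 1 * Kij i i v v' + (-1) * M v v') =
        BCk w u₁ u₂ g₁ g₂ (1 / 2 + δ) (Kij i i) - BCk w u₁ u₂ g₁ g₂ (1 / 2 + δ) M := by
      rw [lin 1 (-1) (Kij i i) M (hKc i i) hMc]
      ring
    have hDb : |BCk w u₁ u₂ g₁ g₂ (1 / 2 + δ) (fun v v' => 1 * Kij i i v v' + (-1) * M v v')| ≤
        c * (3 / 2 * δ) * W := by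
      refine lbd _ _ ((continuous_const.mul (hKc i i)).add (continuous_const.mul hMc))
        fun v hv v' hv' => ?_
      have := hdiff i i v hv v' hv'
      have e1 : 1 * Kij i i v v' + (-1) * M v v' = Kij i i v v' - M v v' := by ring
      rw [e1]
      exact this
    set L : ℝ → ℝ → ℝ → ℝ → ℝ := fun α β v v' =>
      max (min (min (1 / 2 - v) (1 / 2 - v')) β) 0 - max (min (min (1 / 2 - v) (1 / 2 - v')) α) 0
      with hL
    have hLc : ∀ α β, Continuous (fun p : ℝ × ℝ => L α β p.1 p.2) := by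
      intro α β
      simp only [hL]
      fun_prop
    have hLev : ∀ α β, 0 ≤ α → α ≤ β → β ≤ 1 / 2 → BCk w u₁ u₂ g₁ g₂ (1 / 2 + δ) (L α β) =
        ∫ u in (1 / 2 - β)..(1 / 2 - α), Kq w u₁ u₂ g₁ g₂ u := fun α β q1 q2 q3 =>
      h3 w u₁ u₂ g₁ g₂ (1 / 2 + δ) α β hw hu₁ hu₂ (by linarith) q1 q2 q3
    have hMe : BCk w u₁ u₂ g₁ g₂ (1 / 2 + δ) M =
        BCk w u₁ u₂ g₁ g₂ (1 / 2 + δ) (fun v v' => 1 * (t * κ' * L (τ i) (1 / 2) v v' +
          (r + t * κ' * lam ^ 2) * L (max (σ i) 0) (τ i) v v') + 1 * L 0 (max (σ i) 0) v v') := by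
      refine gen_congr hV fun v hv v' hv' => ?_
      have := x1 r t lam κ' (τ i) (σ i) (1 / 2 - v) (1 / 2 - v') b1 b2 b3
        (by linarith [hv.1]) (by linarith [hv'.1])
      simp only [hM, hL, this]
      ring
    have hMv : BCk w u₁ u₂ g₁ g₂ (1 / 2 + δ) M =
        t * κ' * (∫ u in (0 : ℝ)..(1 / 2 - τ i), Kq w u₁ u₂ g₁ g₂ u) +
        (r + t * κ' * lam ^ 2) *
          (∫ u in (1 / 2 - τ i)..(1 / 2 - max (σ i) 0), Kq w u₁ u₂ g₁ g₂ u) +
        ∫ u in (1 / 2 - max (σ i) 0)..(1 / 2), Kq w u₁ u₂ g₁ g₂ u := by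
      rw [hMe, lin 1 1 (fun v v' => t * κ' * L (τ i) (1 / 2) v v' +
          (r + t * κ' * lam ^ 2) * L (max (σ i) 0) (τ i) v v') (L 0 (max (σ i) 0))
          ((continuous_const.mul (hLc _ _)).add (continuous_const.mul (hLc _ _))) (hLc _ _),
        lin _ _ (L (τ i) (1 / 2)) (L (max (σ i) 0) (τ i)) (hLc _ _) (hLc _ _),
        hLev _ _ b2 b3 le_rfl, hLev _ _ b5 b4 b3, hLev _ _ le_rfl b5 (b4.trans b3)]
      rw [sub_self, sub_zero]
      ring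
    have i1 := hint 0 (1 / 2 - τ i) le_rfl (by linarith)
    have i2 := hint (1 / 2 - τ i) (1 / 2 - max (σ i) 0) (by linarith) (by linarith)
    have hMle : BCk w u₁ u₂ g₁ g₂ (1 / 2 + δ) M ≤ Ki i := by
      rw [hMv]
      simp only [hKi, Kint]
      rw [hmin i]
      have c1 : t * κ' ≤ t * κ := mul_le_mul_of_nonneg_left hκκ ht0
      have c2 : r + t * κ' * lam ^ 2 ≤ r + t * κ * lam ^ 2 := by
        have := mul_le_mul_of_nonneg_right c1 (sq_nonneg lam)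
        linarith
      have d1 := mul_le_mul_of_nonneg_right c1 i1
      have d2 := mul_le_mul_of_nonneg_right c2 i2
      linarith
    have := (abs_le.1 hDb).2
    rw [hD] at this
    linarith
  -- the sum
  have hterm : ∀ i ∈ range J, ∀ j ∈ range J,
      Sm i j * BCk w u₁ u₂ g₁ g₂ (1 / 2 + δ) (Kij i j) ≤
        (if i = j then s i * (Ki i + c * (3 / 2 * δ) * W) else 0) +
          (if i = j then 0 else |Sm i j|) * (c * W) := by
    intro i hi j hj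
    have hi' := Finset.mem_range.1 hi
    by_cases hij : i = j
    · subst hij
      rw [if_pos rfl, if_pos rfl, zero_mul, add_zero]
      obtain ⟨s1, s2⟩ := hSm i hi'
      have hb : 0 ≤ Ki i + c * (3 / 2 * δ) * W := by
        have := hKi0 i hi'
        positivity
      exact (mul_le_mul_of_nonneg_left (hdiag i hi') s1).trans (mul_le_mul_of_nonneg_right s2 hb)
    · rw [if_neg hij, if_neg hij, zero_add]
      calc Sm i j * BCk w u₁ u₂ g₁ g₂ (1 / 2 + δ) (Kij i j)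
          ≤ |Sm i j * BCk w u₁ u₂ g₁ g₂ (1 / 2 + δ) (Kij i j)| := le_abs_self _
        _ = |Sm i j| * |BCk w u₁ u₂ g₁ g₂ (1 / 2 + δ) (Kij i j)| := abs_mul _ _
        _ ≤ |Sm i j| * (c * W) := mul_le_mul_of_nonneg_left (hoff i j) (abs_nonneg _)
  have hsum : ∑ i ∈ range J, ∑ j ∈ range J, Sm i j * BCk w u₁ u₂ g₁ g₂ (1 / 2 + δ) (Kij i j) ≤
      (∑ i ∈ range J, s i * (Ki i + c * (3 / 2 * δ) * W)) + S₁ * (c * W) := by
    have k1 : ∑ i ∈ range J, ∑ j ∈ range J, Sm i j * BCk w u₁ u₂ g₁ g₂ (1 / 2 + δ) (Kij i j) ≤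
        ∑ i ∈ range J, ∑ j ∈ range J,
          ((if i = j then s i * (Ki i + c * (3 / 2 * δ) * W) else 0) +
          (if i = j then 0 else |Sm i j|) * (c * W)) :=
      Finset.sum_le_sum fun i hi => Finset.sum_le_sum fun j hj => hterm i hi j hj
    have k2 : ∑ i ∈ range J, ∑ j ∈ range J,
          ((if i = j then s i * (Ki i + c * (3 / 2 * δ) * W) else 0) +
          (if i = j then 0 else |Sm i j|) * (c * W)) =
        (∑ i ∈ range J, s i * (Ki i + c * (3 / 2 * δ) * W)) +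
          (∑ i ∈ range J, ∑ j ∈ range J, (if i = j then 0 else |Sm i j|)) * (c * W) := by
      simp only [Finset.sum_add_distrib, ← Finset.sum_mul]
      congr 1
      refine Finset.sum_congr rfl fun i hi => ?_
      rw [Finset.sum_ite_eq, if_pos hi]
    rw [k2] at k1
    refine k1.trans ?_
    have := mul_le_mul_of_nonneg_right hS₁ (mul_nonneg hc0 hW0)
    linarith
  -- comparison of the constants
  have hWle : W ≤ (∫ v in (0 : ℝ)..(1 / 2 + δ), w v) + g₁ * B₁ + g₂ * B₂ := by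
    rw [hWdef, WW]
    have m1 := mul_le_mul_of_nonneg_left hB₁ hg₁
    have m2 := mul_le_mul_of_nonneg_left hB₂ hg₂
    linarith
  have hcle : c ≤ 5 + 4 * r + 4 * t * κ := by
    have : t * κ' ≤ t * κ := mul_le_mul_of_nonneg_left hκκ ht0
    rw [hcdef]; linarith
  have hss : 0 ≤ ∑ k ∈ range J, s k := Finset.sum_nonneg fun k hk => by
    obtain ⟨s1, s2⟩ := hSm k (Finset.mem_range.1 hk)
    linarith
  have hS0 : 0 ≤ S₁ := by
    refine le_trans (Finset.sum_nonneg fun i _ => Finset.sum_nonneg fun j _ => ?_) hS₁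
    split_ifs
    · exact le_rfl
    · exact abs_nonneg _
  have hfin : (∑ i ∈ range J, s i * (Ki i + c * (3 / 2 * δ) * W)) + S₁ * (c * W) =
      (∑ i ∈ range J, s i * Ki i) + c * (3 / 2 * δ * (∑ k ∈ range J, s k) + S₁) * W := by
    simp only [mul_add, Finset.sum_add_distrib, ← Finset.sum_mul]
    ring
  have hbig : c * (3 / 2 * δ * (∑ k ∈ range J, s k) + S₁) * W ≤
      (5 + 4 * r + 4 * t * κ) * (3 / 2 * δ * (∑ k ∈ range J, s k) + S₁) *
        ((∫ v in (0 : ℝ)..(1 / 2 + δ), w v) + g₁ * B₁ + g₂ * B₂) := by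
    have n1 : 0 ≤ 3 / 2 * δ * (∑ k ∈ range J, s k) + S₁ := by positivity
    have n2 : c * (3 / 2 * δ * (∑ k ∈ range J, s k) + S₁) ≤
        (5 + 4 * r + 4 * t * κ) * (3 / 2 * δ * (∑ k ∈ range J, s k) + S₁) :=
      mul_le_mul_of_nonneg_right hcle n1
    exact mul_le_mul n2 hWle hW0 ((mul_nonneg hc0 n1).trans n2)
  have goal1 : BCk w u₁ u₂ g₁ g₂ (1 / 2 + δ) (fun v v' => e v * e v' +
      ∑ i ∈ range J, ∑ j ∈ range J, Sm i j * Kij i j v v') ≤
      (∑ i ∈ range J, s i * Ki i) + (5 + 4 * r + 4 * t * κ) *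
        (3 / 2 * δ * (∑ k ∈ range J, s k) + S₁) *
        ((∫ v in (0 : ℝ)..(1 / 2 + δ), w v) + g₁ * B₁ + g₂ * B₂) +
        qP w u₁ u₂ g₁ g₂ (1 / 2 + δ) e := by
    rw [hlin]
    linarith
  exact goal1

end Pool.Agent.MP0016c7.PC
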