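import Mathlib
import Pool.Agent.Lib.MP_0016c7_nt.PC.GStm

set_option autoImplicit false

/-!
Project PrimeConductors, block [G]: from the pieces to `JF_core`.
-/

open Finset MeasureTheory Filter Topology
open scoped Real ContDiff

namespace Pool.Agent.MP0016c7.PC

open Pool.Agent.MP0016c7.Rz

/-- Off-diagonal sum: at most twice the sum over the neighbours. -/
private lemma offdiag_sum (J : ℕ) (δ : ℝ) (cs : ℕ → ℝ) :
    (∑ i ∈ range J, ∑ j ∈ range J,
      (if i = j then 0 else if i = j + 1 ∨ j = i + 1 then δ * (cs i * cs j) else 0)) =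
      2 * δ * ∑ k ∈ range (J - 1), cs k * cs (k + 1) := by
  induction J with
  | zero => simp
  | succ n ih =>
    rw [Finset.sum_range_succ]
    simp_rw [Finset.sum_range_succ]
    rw [Finset.sum_add_distrib, ih]
    simp only [↓reduceIte, add_zero]
    rcases Nat.eq_zero_or_pos n with rfl | hn
    · simp
    · obtain ⟨m, rfl⟩ : ∃ m, n = m + 1 := ⟨n - 1, by omega⟩
      have e1 : ∑ x ∈ range (m + 1), (if x = m + 1 then (0 : ℝ) else
          if x = m + 1 + 1 ∨ m + 1 = x + 1 then δ * (cs x * cs (m + 1)) else 0) =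
          δ * (cs m * cs (m + 1)) := by
        rw [Finset.sum_eq_single m]
        · rw [if_neg (by omega), if_pos (by omega)]
        · intro b hb hbm
          rw [Finset.mem_range] at hb
          rw [if_neg (by omega), if_neg (by omega)]
        · intro h
          exact absurd (Finset.mem_range.mpr (by omega)) h
      have e2 : ∑ x ∈ range (m + 1), (if m + 1 = x then (0 : ℝ) else
          if m + 1 = x + 1 ∨ x = m + 1 + 1 then δ * (cs (m + 1) * cs x) else 0) =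
          δ * (cs m * cs (m + 1)) := by
        rw [Finset.sum_eq_single m]
        · rw [if_neg (by omega), if_pos (by omega)]
          ring
        · intro b hb hbm
          rw [Finset.mem_range] at hb
          rw [if_neg (by omega), if_neg (by omega)]
        · intro h
          exact absurd (Finset.mem_range.mpr (by omega)) h
      rw [e1, e2]
      have e3 : m + 1 + 1 - 1 = m + 1 := by omega
      have e4 : m + 1 - 1 = m := by omega
      rw [e3, e4, Finset.sum_range_succ]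
      ring

private lemma ws_mono {J : ℕ} {δ : ℝ} {ws : ℕ → ℝ} (hδ : 0 < δ)
    (hws : ∀ k, k + 1 < J → ws k + δ ≤ ws (k + 1)) : ∀ k l, k ≤ l → l < J → ws k ≤ ws l := by
  intro k l hkl
  induction l, hkl using Nat.le_induction with
  | base => intro _; exact le_rfl
  | succ l hkl ih =>
    intro hl
    have h1 := ih (by omega)
    have h2 := hws l hl
    linarith

/-- Continuity of the kernel `XX`. -/
private lemma cont_XX {Γ : ℝ → ℝ → ℝ} (hΓ : Continuous (fun p : ℝ × ℝ => Γ p.1 p.2))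
    (r t lam κ' τ σ τ' σ' : ℝ) :
    Continuous (fun p : ℝ × ℝ => XX Γ r t lam κ' τ σ τ' σ' (1 / 2 - p.1) (1 / 2 - p.2)) := by
  have key : ∀ f g : ℝ × ℝ → ℝ, Continuous f → Continuous g →
      Continuous (fun p => Γ (f p) (g p)) := fun f g hf hg => hΓ.comp (hf.prodMk hg)
  have a0 : Continuous (fun p : ℝ × ℝ => 1 / 2 - p.1) := by fun_prop
  have a1 : Continuous (fun p : ℝ × ℝ => min (1 / 2 - p.1) τ) := by fun_prop
  have a2 : Continuous (fun p : ℝ × ℝ => min (1 / 2 - p.1) σ) := by fun_prop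
  have b0 : Continuous (fun p : ℝ × ℝ => 1 / 2 - p.2) := by fun_prop
  have b1 : Continuous (fun p : ℝ × ℝ => min (1 / 2 - p.2) τ') := by fun_prop
  have b2 : Continuous (fun p : ℝ × ℝ => min (1 / 2 - p.2) σ') := by fun_prop
  have c00 := key _ _ a0 b0
  have c01 := key _ _ a0 b1
  have c02 := key _ _ a0 b2
  have c10 := key _ _ a1 b0
  have c11 := key _ _ a1 b1
  have c12 := key _ _ a1 b2
  have c20 := key _ _ a2 b0
  have c21 := key _ _ a2 b1
  have c22 := key _ _ a2 b2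
  unfold XX GG cmb
  fun_prop

theorem p_G_fin : G_fin := by
  intro hprod hlin hsplit hgam hen hmean hms hsym
  intro δ κ E J ws cs σs w u₁ u₂ y g₁ g₂ B₁ B₂ t lam ν hδ hδ' hκ hJ hws0 hws hcs hw hwp hu₁ hu₂ hy
    hg₁ hg₂ hC
  intro ρ hρ hρ0 hρ1 Sm hSmd hSmo K ε' hε'
  have hV0 : (0 : ℝ) ≤ 1 / 2 + δ := by linarith
  -- symmetrisation
  set Ss : ℕ → ℕ → ℝ := fun i j => (Sm i j + Sm j i) / 2 with hSs
  have hSsym : ∀ i j, Ss i j = Ss j i := fun i j => by simp only [hSs]; ring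
  have hSsd : ∀ k < J, 0 ≤ Ss k k ∧ Ss k k ≤ cs k ^ 2 * sk ws k := by
    intro k hk
    have := hSmd k hk
    have e : Ss k k = Sm k k := by simp only [hSs]; ring
    rw [e]; exact this
  have hSso : ∀ k < J, ∀ l < J, k ≠ l →
      |Ss k l| ≤ if k = l + 1 ∨ l = k + 1 then δ * (cs k * cs l) else 0 := by
    intro k hk l hl hkl
    have h1 := hSmo k hk l hl hkl
    have h2 := hSmo l hl k hk (Ne.symm hkl)
    have h3 : (if l = k + 1 ∨ k = l + 1 then δ * (cs l * cs k) else 0) =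
        if k = l + 1 ∨ l = k + 1 then δ * (cs k * cs l) else 0 := by
      by_cases h : k = l + 1 ∨ l = k + 1
      · rw [if_pos h, if_pos h.symm, mul_comm (cs l)]
      · rw [if_neg h, if_neg (fun h' => h h'.symm)]
    rw [h3] at h2
    have h4 : |Ss k l| ≤ (|Sm k l| + |Sm l k|) / 2 := by
      simp only [hSs]
      rw [abs_div, abs_of_pos (by norm_num : (0 : ℝ) < 2)]
      have := abs_add_le (Sm k l) (Sm l k)
      linarith
    linarith
  -- parameters
  set r : ℝ := 1 - t * lam ^ 2 + (t - 1) * ν ^ 2 with hr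
  have hr0 : 0 ≤ r := hC.hρ
  have ht := hC.ht
  set mm : ℕ → ℝ := fun k => cs k * HS ws k 0 with hmm
  set τ : ℕ → ℝ := fun k => 1 / 2 - ws k - 6 * δ with hτdef
  have hmono := ws_mono hδ hws
  have hwsle : ∀ k < J, ws k ≤ ws (J - 1) := fun k hk => hmono k (J - 1) (by omega) (by omega)
  have hws0le : ∀ k < J, 0 < ws k := fun k hk => lt_of_lt_of_le hws0 (hmono 0 k (by omega) hk)
  have hτσ : ∀ k < J, -δ ≤ σs k ∧ σs k ≤ τ k ∧ 0 ≤ τ k ∧ τ k ≤ 1 / 2 := by
    intro k hk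
    obtain ⟨h1, h2⟩ := hC.hσ₀ k hk
    have h3 := hC.hτ
    have h4 := hwsle k hk
    have h5 := hws0le k hk
    refine ⟨h1, h2, ?_, ?_⟩
    · simp only [hτdef]; linarith
    · simp only [hτdef]; linarith
  obtain ⟨Yb, hYb⟩ : ∃ Yb : ℝ, ∀ v ∈ Set.Icc 0 (1 / 2 + δ), |y v| ≤ Yb := by
    obtain ⟨C, hC'⟩ := isCompact_Icc.exists_bound_of_continuousOn (f := y)
      (s := Set.Icc 0 (1 / 2 + δ)) hy.continuousOn
    exact ⟨C, fun v hv => by simpa [Real.norm_eq_abs] using hC' v hv⟩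
  obtain ⟨C₁, hC₁0, hC₁⟩ := hmean J δ (t + r) Yb hδ hδ' τ σs hτσ mm
  have hσcond := hC.hσ
  obtain ⟨C₂, hC₂1, hC₂⟩ := hms J δ κ K ws cs σs hδ hδ' hκ hws0 hws hcs hC.hτ hC.hσ₀ hσcond ρ hρ hρ0
    hρ1 mm Ss hSsym
  obtain ⟨hl1, hl2, hl3, hl4⟩ := hlin w u₁ u₂ g₁ g₂ (1 / 2 + δ) hw hu₁ hu₂ hV0
  obtain ⟨hWW, hbd⟩ := hl4 hwp hg₁ hg₂
  set W := WW w u₁ u₂ g₁ g₂ (1 / 2 + δ) with hWdef
  have hden : 0 < C₁ * C₂ * W + 1 := by positivity
  refine ⟨min 1 (ε' / (C₁ * C₂ * W + 1)), lt_min one_pos (div_pos hε' hden), ?_⟩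
  intro I κ' hI hIK hκ'0 hκ'κ S cf cf' T hMD
  set ε₁ := min 1 (ε' / (C₁ * C₂ * W + 1)) with hε₁def
  have hε₁0 : 0 < ε₁ := lt_min one_pos (div_pos hε' hden)
  have hε₁1 : ε₁ ≤ 1 := min_le_left _ _
  have hε₁2 : ε₁ * (C₁ * C₂ * W + 1) ≤ ε' := by
    have : ε₁ ≤ ε' / (C₁ * C₂ * W + 1) := min_le_right _ _
    rwa [le_div_iff₀ hden] at this
  -- the symmetrised moment data
  have hMD' : MD J ws mm Ss ρ δ I κ' ε₁ S cf cf' T := by
    refine ⟨hMD.nn, hMD.ct, hMD.m0, hMD.m1, hMD.det, ?_, ?_⟩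
    · intro i hi j hj Y₁ hY₁ Y₂ hY₂ hsum
      have h1 := hMD.m2 i hi j hj Y₁ hY₁ Y₂ hY₂ hsum
      have h2 := hMD.m2 j hj i hi Y₂ hY₂ Y₁ hY₁ (by linarith)
      have e1 : ∑ d ∈ S, cf d * (T j d Y₂ * T i d Y₁) = ∑ d ∈ S, cf d * (T i d Y₁ * T j d Y₂) :=
        Finset.sum_congr rfl (fun d _ => by ring)
      rw [e1, hsym δ ρ hδ hρ Y₂ Y₁] at h2
      rw [abs_le] at h1 h2 ⊢
      simp only [hSs]
      constructor <;> nlinarith [h1.1, h1.2, h2.1, h2.2]
    · intro i hi j hj Y₁ hY₁ Y₂ hY₂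
      have h1 := hMD.m2' i hi j hj Y₁ hY₁ Y₂ hY₂
      have h2 := hMD.m2' j hj i hi Y₂ hY₂ Y₁ hY₁
      have e1 : ∑ d ∈ S, cf' d * (T j d Y₂ * T i d Y₁) = ∑ d ∈ S, cf' d * (T i d Y₁ * T j d Y₂) :=
        Finset.sum_congr rfl (fun d _ => by ring)
      rw [e1, hsym δ ρ hδ hρ Y₂ Y₁] at h2
      rw [abs_le] at h1 h2 ⊢
      simp only [hSs]
      constructor <;> nlinarith [h1.1, h1.2, h2.1, h2.2]
  have hMS := hC₂ I κ' ε₁ hI hIK hκ'0 hκ'κ hε₁0 hε₁1 S cf cf' T hMD'
  have hker := hC₁ y t lam r hYb ht (by linarith) hC.hlam.1 hC.hlam.2 hr0 (by linarith) Ss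
    (Gam2 ρ ρ) hSsym (hsym δ ρ hδ hρ) I κ' (C₂ * ε₁) hI hκ'0 S cf cf' T hMS
  -- the processes
  set F : ℕ → ℝ → ℝ := fun d v => y v - ∑ k ∈ range J, T k d (min (1 / 2 - v) (σs k)) with hF
  set AB : ℕ → ℝ → ℝ := fun d v =>
    ∑ k ∈ range J, (T k d (1 / 2 - v) - T k d (min (1 / 2 - v) (σs k))) with hAB
  set A : ℕ → ℝ → ℝ := fun d v =>
    ∑ k ∈ range J, (T k d (min (1 / 2 - v) (τ k)) - T k d (min (1 / 2 - v) (σs k))) with hA
  set B : ℕ → ℝ → ℝ := fun d v =>
    ∑ k ∈ range J, (T k d (1 / 2 - v) - T k d (min (1 / 2 - v) (τ k))) with hB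
  set D : ℕ → ℝ → ℝ := fun d v =>
    ∑ k ∈ range J, cmb 1 (lam - 1) (-lam) (τ k) (σs k) (T k d) (1 / 2 - v) with hD
  have hTc : ∀ k ∈ range J, ∀ d, Continuous (T k d) := fun k hk d =>
    hMD.ct k (Finset.mem_range.mp hk) d
  have hFc : ∀ d, Continuous (F d) := by
    intro d
    refine hy.sub (continuous_finset_sum _ (fun k hk => ?_))
    exact (hTc k hk d).comp (by fun_prop)
  have hABc : ∀ d, Continuous (AB d) := by
    intro d
    refine continuous_finset_sum _ (fun k hk => ?_)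
    exact ((hTc k hk d).comp (by fun_prop)).sub ((hTc k hk d).comp (by fun_prop))
  have hAc : ∀ d, Continuous (A d) := by
    intro d
    refine continuous_finset_sum _ (fun k hk => ?_)
    exact ((hTc k hk d).comp (by fun_prop)).sub ((hTc k hk d).comp (by fun_prop))
  have hBc : ∀ d, Continuous (B d) := by
    intro d
    refine continuous_finset_sum _ (fun k hk => ?_)
    exact ((hTc k hk d).comp (by fun_prop)).sub ((hTc k hk d).comp (by fun_prop))
  have hABe : ∀ d v, A d v + B d v = AB d v := by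
    intro d v
    simp only [hA, hB, hAB, ← Finset.sum_add_distrib]
    exact Finset.sum_congr rfl (fun k _ => by ring)
  have hDe : ∀ d v, B d v + lam * A d v = D d v := by
    intro d v
    simp only [hA, hB, hD, Finset.mul_sum, ← Finset.sum_add_distrib]
    refine Finset.sum_congr rfl (fun k _ => ?_)
    unfold cmb
    ring
  have hDc : ∀ d, Continuous (D d) := by
    intro d
    have : D d = fun v => B d v + lam * A d v := by
      funext v; exact (hDe d v).symm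
    rw [this]
    exact (hBc d).add (continuous_const.mul (hAc d))
  have hFe : ∀ d v, F d v - AB d v = y v - ∑ k ∈ range J, T k d (1 / 2 - v) := by
    intro d v
    simp only [hF, hAB, Finset.sum_sub_distrib]
    ring
  -- the kernels
  set K1 : ℕ → ℝ → ℝ → ℝ := fun d v v' =>
    F d v * F d v' - 2 * (F d v * AB d v') + r * (A d v * A d v') with hK1
  set K2 : ℕ → ℝ → ℝ → ℝ := fun d v v' => D d v * D d v' with hK2
  have hK1c : ∀ d, Continuous (fun p : ℝ × ℝ => K1 d p.1 p.2) := by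
    intro d
    have f1 := (hFc d).comp (continuous_fst (X := ℝ) (Y := ℝ))
    have f2 := (hFc d).comp (continuous_snd (X := ℝ) (Y := ℝ))
    have a1 := (hAc d).comp (continuous_fst (X := ℝ) (Y := ℝ))
    have a2 := (hAc d).comp (continuous_snd (X := ℝ) (Y := ℝ))
    have b2 := (hABc d).comp (continuous_snd (X := ℝ) (Y := ℝ))
    simp only [hK1]
    exact ((f1.mul f2).sub (continuous_const.mul (f1.mul b2))).add
      (continuous_const.mul (a1.mul a2))
  have hK2c : ∀ d, Continuous (fun p : ℝ × ℝ => K2 d p.1 p.2) := by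
    intro d
    simp only [hK2]
    exact ((hDc d).comp continuous_fst).mul ((hDc d).comp continuous_snd)
  set q := qP w u₁ u₂ g₁ g₂ (1 / 2 + δ) with hq
  set bk := BCk w u₁ u₂ g₁ g₂ (1 / 2 + δ) with hbk
  -- one discriminant
  have hone : ∀ d, 0 ≤ q (fun v => D d v) ∧
      q (fun v => y v - ∑ k ∈ range J, T k d (1 / 2 - v)) ≤
        bk (K1 d) + t * q (fun v => D d v) := by
    intro d
    have h1 := hsplit w u₁ u₂ g₁ g₂ (1 / 2 + δ) hw hwp hu₁ hu₂ hV0 hg₁ hg₂ t lam ν ht hC.htl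
      (F d) (A d) (B d) (hFc d) (hAc d) (hBc d)
    have e1 : (fun v => B d v + lam * A d v) = fun v => D d v := by
      funext v; exact hDe d v
    have e2 : (fun v => F d v - (A d v + B d v)) =
        fun v => y v - ∑ k ∈ range J, T k d (1 / 2 - v) := by
      funext v; rw [hABe, hFe]
    have e3 : (fun v v' => F d v * F d v' - 2 * (F d v * (A d v' + B d v')) +
        (1 - t * lam ^ 2 + (t - 1) * ν ^ 2) * (A d v * A d v')) = K1 d := by
      funext v v'
      simp only [hK1]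
      rw [hABe, ← hr]
    rw [e1, e2, e3] at h1
    exact h1
  have hq2 : ∀ d, q (fun v => D d v) = bk (K2 d) := by
    intro d
    exact ((hprod w u₁ u₂ g₁ g₂ (1 / 2 + δ) (fun v => D d v) (fun v => D d v)).2).symm
  have ht0 : 0 ≤ t := by linarith
  -- sum over d
  have hsum1 : ∑ d ∈ S, cf d * q (fun v => y v - ∑ k ∈ range J, T k d (1 / 2 - v)) ≤
      (∑ d ∈ S, cf d * bk (K1 d)) + t * ∑ d ∈ S, cf' d * bk (K2 d) := by
    rw [Finset.mul_sum, ← Finset.sum_add_distrib]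
    refine Finset.sum_le_sum (fun d hd => ?_)
    obtain ⟨n1, n2⟩ := hMD.nn d hd
    obtain ⟨o1, o2⟩ := hone d
    have h1 : cf d * q (fun v => y v - ∑ k ∈ range J, T k d (1 / 2 - v)) ≤
        cf d * (bk (K1 d) + t * q (fun v => D d v)) := mul_le_mul_of_nonneg_left o2 n1
    have h2 : cf d * (t * q (fun v => D d v)) ≤ cf' d * (t * q (fun v => D d v)) :=
      mul_le_mul_of_nonneg_right n2 (mul_nonneg ht0 o1)
    rw [← hq2 d]
    calc _ ≤ cf d * (bk (K1 d) + t * q (fun v => D d v)) := h1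
      _ = cf d * bk (K1 d) + cf d * (t * q (fun v => D d v)) := by ring
      _ ≤ cf d * bk (K1 d) + cf' d * (t * q (fun v => D d v)) := by linarith
      _ = _ := by ring
  have hsum2 : (∑ d ∈ S, cf d * bk (K1 d)) = bk (fun v v' => ∑ d ∈ S, cf d * K1 d v v') :=
    (hl3 S cf K1 hK1c).symm
  have hsum3 : (∑ d ∈ S, cf' d * bk (K2 d)) = bk (fun v v' => ∑ d ∈ S, cf' d * K2 d v v') :=
    (hl3 S cf' K2 hK2c).symm
  have hS1c : Continuous (fun p : ℝ × ℝ => ∑ d ∈ S, cf d * K1 d p.1 p.2) :=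
    continuous_finset_sum _ (fun d _ => continuous_const.mul (hK1c d))
  have hS2c : Continuous (fun p : ℝ × ℝ => ∑ d ∈ S, cf' d * K2 d p.1 p.2) :=
    continuous_finset_sum _ (fun d _ => continuous_const.mul (hK2c d))
  have hsum4 : bk (fun v v' => ∑ d ∈ S, cf d * K1 d v v') +
      t * bk (fun v v' => ∑ d ∈ S, cf' d * K2 d v v') =
      bk (fun v v' => 1 * (∑ d ∈ S, cf d * K1 d v v') + t * ∑ d ∈ S, cf' d * K2 d v v') := by
    have h0 := hl1 1 t (fun v v' => ∑ d ∈ S, cf d * K1 d v v')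
      (fun v v' => ∑ d ∈ S, cf' d * K2 d v v') hS1c hS2c
    rw [h0, one_mul]
  -- the limit kernel
  set KL : ℝ → ℝ → ℝ := fun v v' => (y v - ∑ k ∈ range J, mm k) * (y v' - ∑ k ∈ range J, mm k) +
      ∑ i ∈ range J, ∑ j ∈ range J, Ss i j *
        XX (Gam2 ρ ρ) r t lam κ' (τ i) (σs i) (τ j) (σs j) (1 / 2 - v) (1 / 2 - v') with hKL
  obtain ⟨hG1, hG2, hG3⟩ := hgam δ ρ hδ hρ hρ0 hρ1
  have hKLc : Continuous (fun p : ℝ × ℝ => KL p.1 p.2) := by
    simp only [hKL]
    refine Continuous.add ?_ ?_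
    · exact ((hy.comp continuous_fst).sub continuous_const).mul
        ((hy.comp continuous_snd).sub continuous_const)
    · refine continuous_finset_sum _ (fun i _ => continuous_finset_sum _ (fun j _ => ?_))
      exact continuous_const.mul (cont_XX hG1 r t lam κ' (τ i) (σs i) (τ j) (σs j))
  set KS : ℝ → ℝ → ℝ := fun v v' =>
    1 * (∑ d ∈ S, cf d * K1 d v v') + t * ∑ d ∈ S, cf' d * K2 d v v' with hKS
  have hKSc : Continuous (fun p : ℝ × ℝ => KS p.1 p.2) := by
    simp only [hKS]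
    exact (continuous_const.mul hS1c).add (continuous_const.mul hS2c)
  have hdiff : bk (fun v v' => 1 * KS v v' + (-I) * KL v v') = 1 * bk KS + (-I) * bk KL := by
    exact hl1 1 (-I) KS KL hKSc hKLc
  have hdc : Continuous (fun p : ℝ × ℝ => 1 * KS p.1 p.2 + (-I) * KL p.1 p.2) :=
    (continuous_const.mul hKSc).add (continuous_const.mul hKLc)
  have hb : |bk (fun v v' => 1 * KS v v' + (-I) * KL v v')| ≤ C₁ * (C₂ * ε₁) * W := by
    refine hbd _ (fun v v' => 1 * KS v v' + (-I) * KL v v') hdc ?_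
    intro v hv v' hv'
    have h1 := hker v hv v' hv'
    have e : 1 * KS v v' + (-I) * KL v v' = KS v v' - I * KL v v' := by ring
    rw [e]
    simp only [hKS, hKL, hK1, hK2, hF, hAB, hA, hD, one_mul]
    exact h1
  have hE := hen J δ κ hδ hδ' hκ ρ hρ hρ0 hρ1 w u₁ u₂ (fun v => y v - HJ ws cs J 0) g₁ g₂ B₁ B₂
    t lam ν hw hwp hu₁ hu₂ (hy.sub continuous_const) hg₁ hg₂ hC.hB₁ hC.hB₂ ht hC.hlam.1 hC.hlam.2
    hC.hρ τ σs (fun k hk => ⟨(hτσ k hk).2.1, (hτσ k hk).2.2.1, (hτσ k hk).2.2.2⟩)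
    (fun k => cs k ^ 2 * sk ws k) Ss (2 * δ * ∑ k ∈ range (J - 1), cs k * cs (k + 1)) hSsd (by
      rw [← offdiag_sum]
      refine Finset.sum_le_sum (fun i hi => Finset.sum_le_sum (fun j hj => ?_))
      by_cases hij : i = j
      · rw [if_pos hij, if_pos hij]
      · rw [if_neg hij, if_neg hij]
        exact hSso i (Finset.mem_range.mp hi) j (Finset.mem_range.mp hj) hij) κ' hκ'0 hκ'κ
  have hE2 : bk KL ≤ E := by
    have e1 : HJ ws cs J 0 = ∑ k ∈ range J, mm k := by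
      simp only [hmm]; rfl
    rw [e1] at hE
    refine hE.trans ?_
    have h2 := hC.en
    rw [e1] at h2
    exact h2
  have hfin : bk KS ≤ I * E + ε' := by
    have h1 := (abs_le.mp hb).2
    rw [hdiff] at h1
    have h2 : I * bk KL ≤ I * E := mul_le_mul_of_nonneg_left hE2 hI
    have h3 : C₁ * (C₂ * ε₁) * W ≤ ε' := by
      have : C₁ * (C₂ * ε₁) * W = ε₁ * (C₁ * C₂ * W) := by ring
      rw [this]
      nlinarith
    linarith
  calc _ ≤ (∑ d ∈ S, cf d * bk (K1 d)) + t * ∑ d ∈ S, cf' d * bk (K2 d) := hsum1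
    _ = bk KS := by rw [hsum2, hsum3, hsum4]
    _ ≤ _ := hfin

end Pool.Agent.MP0016c7.PC
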