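import Mathlib
import Pool.Agent.Lib.MP_0016c7_nt.PC.GStm

set_option autoImplicit false

/-!
Project PrimeConductors, block [G], piece `G_finpt`: the functional inequality at one height.
-/

open Finset MeasureTheory Filter Topology
open scoped Real ContDiff

namespace Pool.Agent.MP0016c7.PC

open Pool.Agent.MP0016c7.Rz

/-- neighbours on a line -/
private theorem fp_nb (n : ℕ) (f : ℕ → ℕ → ℝ) :
    ∑ i ∈ range n, ∑ j ∈ range n, (if j = i + 1 then f i j else 0) =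
      ∑ i ∈ range (n - 1), f i (i + 1) := by
  have h1 : ∀ i, ∑ j ∈ range n, (if j = i + 1 then f i j else 0) =
      if i + 1 < n then f i (i + 1) else 0 := by
    intro i
    rw [Finset.sum_ite_eq']
    simp only [mem_range]
  simp only [h1]
  cases n with
  | zero => simp
  | succ m =>
    rw [sum_range_succ, Nat.add_sub_cancel, if_neg (lt_irrefl _), add_zero]
    refine sum_congr rfl fun i hi => ?_
    rw [mem_range] at hi
    rw [if_pos (by omega)]

/-- the off-diagonal sum -/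
private theorem fp_off (J : ℕ) (δ : ℝ) (hδ : 0 ≤ δ) (cs : ℕ → ℝ) (hcs : ∀ k < J, 0 ≤ cs k)
    (Sm : ℕ → ℕ → ℝ)
    (hSm : ∀ k < J, ∀ l < J, k ≠ l →
      |Sm k l| ≤ if k = l + 1 ∨ l = k + 1 then δ * (cs k * cs l) else 0) :
    ∑ i ∈ range J, ∑ j ∈ range J, (if i = j then 0 else |Sm i j|) ≤
      2 * δ * ∑ k ∈ range (J - 1), cs k * cs (k + 1) := by
  have h1 : ∀ i ∈ range J, ∀ j ∈ range J, (if i = j then 0 else |Sm i j|) ≤
      (if j = i + 1 then δ * (cs i * cs j) else 0) +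
        (if i = j + 1 then δ * (cs j * cs i) else 0) := by
    intro i hi j hj
    rw [mem_range] at hi hj
    have hij : 0 ≤ δ * (cs i * cs j) := mul_nonneg hδ (mul_nonneg (hcs i hi) (hcs j hj))
    have hji : 0 ≤ δ * (cs j * cs i) := mul_nonneg hδ (mul_nonneg (hcs j hj) (hcs i hi))
    by_cases h : i = j
    · rw [if_pos h]
      split_ifs <;> linarith
    · rw [if_neg h]
      refine (hSm i hi j hj h).trans ?_
      by_cases h2 : i = j + 1
      · rw [if_pos (Or.inl h2), if_pos h2]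
        have : δ * (cs i * cs j) = δ * (cs j * cs i) := by ring
        split_ifs <;> linarith
      · by_cases h3 : j = i + 1
        · rw [if_pos (Or.inr h3), if_pos h3, if_neg h2]
          linarith
        · rw [if_neg (by tauto), if_neg h2, if_neg h3]
          simp
  calc ∑ i ∈ range J, ∑ j ∈ range J, (if i = j then 0 else |Sm i j|)
      ≤ ∑ i ∈ range J, ∑ j ∈ range J, ((if j = i + 1 then δ * (cs i * cs j) else 0) +
        (if i = j + 1 then δ * (cs j * cs i) else 0)) :=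
        sum_le_sum fun i hi => sum_le_sum fun j hj => h1 i hi j hj
    _ = 2 * δ * ∑ k ∈ range (J - 1), cs k * cs (k + 1) := by
        simp only [sum_add_distrib]
        rw [fp_nb J (fun i j => δ * (cs i * cs j)), sum_comm,
          fp_nb J (fun i j => δ * (cs i * cs j)), ← mul_sum]
        ring

/-- the diagonal value at one height -/
private theorem fp_diag (Y τ σ κ' κ r t lam : ℝ) (hτ : 0 ≤ τ) (hσ : σ ≤ τ) (hY : Y ≤ 1 / 2)
    (ht : 0 ≤ t) (hκ : κ' ≤ κ) (hr : 0 ≤ r) (hκ' : 0 ≤ κ') :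
    t * κ' * (max (min (min Y Y) (1 / 2)) 0 - max (min (min Y Y) τ) 0) +
      (r + t * κ' * lam ^ 2) * (max (min (min Y Y) τ) 0 - max (min (min Y Y) (max σ 0)) 0) +
      (max (min (min Y Y) (max σ 0)) 0 - max (min (min Y Y) 0) 0) ≤
    t * κ * max (Y - τ) 0 + (r + t * κ * lam ^ 2) * max (min Y τ - max σ 0) 0 +
      max (min Y σ) 0 := by
  rw [min_self]
  have e1 : max (min Y (1 / 2)) 0 - max (min Y τ) 0 = max (Y - τ) 0 := by
    rw [min_eq_left hY]
    rcases le_total Y τ with h | h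
    · rw [min_eq_left h, max_eq_right (by linarith : Y - τ ≤ 0), sub_self]
    · rw [min_eq_right h, max_eq_left (by linarith : 0 ≤ Y), max_eq_left hτ,
        max_eq_left (by linarith : 0 ≤ Y - τ)]
  have hm : max σ 0 ≤ τ := max_le hσ hτ
  have hm0 : 0 ≤ max σ 0 := le_max_right _ _
  have e2 : max (min Y τ) 0 - max (min Y (max σ 0)) 0 = max (min Y τ - max σ 0) 0 := by
    rcases le_total Y (max σ 0) with h | h
    · rw [min_eq_left h, min_eq_left (h.trans hm), max_eq_right (by linarith : Y - max σ 0 ≤ 0),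
        sub_self]
    · rw [min_eq_right h]
      have h2 : max σ 0 ≤ min Y τ := le_min h hm
      rw [max_eq_left (hm0.trans h2), max_eq_left hm0,
        max_eq_left (by linarith : 0 ≤ min Y τ - max σ 0)]
  have e3 : max (min Y (max σ 0)) 0 - max (min Y 0) 0 = max (min Y σ) 0 := by
    rw [max_eq_right (min_le_right Y 0), sub_zero]
    rcases le_total σ 0 with h | h
    · rw [max_eq_right h, max_eq_right (min_le_right Y 0),
        max_eq_right ((min_le_right Y σ).trans h)]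
    · rw [max_eq_left h]
  rw [e1, e2, e3]
  have p1 : 0 ≤ max (Y - τ) 0 := le_max_right _ _
  have p2 : 0 ≤ max (min Y τ - max σ 0) 0 := le_max_right _ _
  have q1 : t * κ' ≤ t * κ := mul_le_mul_of_nonneg_left hκ ht
  have q2 : t * κ' * lam ^ 2 ≤ t * κ * lam ^ 2 := mul_le_mul_of_nonneg_right q1 (sq_nonneg _)
  have q3 := mul_le_mul_of_nonneg_right q1 p1
  have q4 := mul_le_mul_of_nonneg_right (by linarith : r + t * κ' * lam ^ 2 ≤ r + t * κ * lam ^ 2) p2
  linarith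

/-- the splitting of the square -/
private theorem fp_split (F A B t lam ν : ℝ) (ht : 1 ≤ t) (h : t * lam + (t - 1) * ν = 1) :
    (F - (A + B)) ^ 2 ≤ (F * F - 2 * (F * (A + B)) +
      (1 - t * lam ^ 2 + (t - 1) * ν ^ 2) * (A * A)) + t * ((B + lam * A) * (B + lam * A)) := by
  have h1 : (F * F - 2 * (F * (A + B)) +
      (1 - t * lam ^ 2 + (t - 1) * ν ^ 2) * (A * A)) + t * ((B + lam * A) * (B + lam * A)) -
      (F - (A + B)) ^ 2 = (t - 1) * (B - ν * A) ^ 2 := by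
    linear_combination (2 * A * B) * h
  have h2 : 0 ≤ (t - 1) * (B - ν * A) ^ 2 := mul_nonneg (by linarith) (sq_nonneg _)
  linarith

/-- symmetrised moment data -/
private theorem fp_symm {J : ℕ} {ws mm : ℕ → ℝ} {Sm : ℕ → ℕ → ℝ} {ρ : ℝ → ℝ} {δ I κ' ε₁ : ℝ}
    {S : Finset ℕ} {cf cf' : ℕ → ℝ} {T : ℕ → ℕ → ℝ → ℝ}
    (hs : ∀ a b, Gam2 ρ ρ a b = Gam2 ρ ρ b a) (h : MD J ws mm Sm ρ δ I κ' ε₁ S cf cf' T) :
    MD J ws mm (fun i j => (Sm i j + Sm j i) / 2) ρ δ I κ' ε₁ S cf cf' T := by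
  refine ⟨h.nn, h.ct, h.m0, h.m1, h.det, ?_, ?_⟩
  · intro i hi j hj Y₁ hY₁ Y₂ hY₂ hle
    have a := h.m2 i hi j hj Y₁ hY₁ Y₂ hY₂ hle
    have b := h.m2 j hj i hi Y₂ hY₂ Y₁ hY₁ (by linarith)
    have e : ∑ d ∈ S, cf d * (T j d Y₂ * T i d Y₁) = ∑ d ∈ S, cf d * (T i d Y₁ * T j d Y₂) :=
      sum_congr rfl fun d _ => by ring
    rw [e, hs Y₂ Y₁] at b
    rw [abs_le] at a b ⊢
    constructor
    · linarith [a.1, b.1]
    · linarith [a.2, b.2]
  · intro i hi j hj Y₁ hY₁ Y₂ hY₂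
    have a := h.m2' i hi j hj Y₁ hY₁ Y₂ hY₂
    have b := h.m2' j hj i hi Y₂ hY₂ Y₁ hY₁
    have e : ∑ d ∈ S, cf' d * (T j d Y₂ * T i d Y₁) = ∑ d ∈ S, cf' d * (T i d Y₁ * T j d Y₂) :=
      sum_congr rfl fun d _ => by ring
    rw [e, hs Y₂ Y₁] at b
    rw [abs_le] at a b ⊢
    constructor
    · linarith [a.1, b.1]
    · linarith [a.2, b.2]

/-- **[G_finpt]** -/
theorem p_G_finpt : G_finpt := by
  intro hxx hgam hmean hms hsym δ κ J ws cs σs hδ hδ1 hκ hJ hw0 hws hcs hlast hσ hσ2 ρ hρ hρ0 hρ1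
    Sm hSd hSo K K₁ ε' hε'
  obtain ⟨hx1, hx2, hx3⟩ := hxx
  obtain ⟨-, hg2, -⟩ := hgam δ ρ hδ hρ hρ0 hρ1
  have hG := hsym δ ρ hδ hρ
  -- the heights
  have hmono : ∀ k < J, ws 0 ≤ ws k ∧ ws k ≤ ws (J - 1) := by
    have up : ∀ n k, k + n < J → ws k ≤ ws (k + n) := by
      intro n
      induction n with
      | zero => intro k _; simp
      | succ m ih =>
        intro k hk
        have h1 := ih k (by omega)
        have h2 := hws (k + m) (by omega)
        have : k + (m + 1) = k + m + 1 := by omega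
        rw [this]; linarith
    intro k hk
    refine ⟨?_, ?_⟩
    · have := up k 0 (by omega); simpa using this
    · have := up (J - 1 - k) k (by omega)
      have e : k + (J - 1 - k) = J - 1 := by omega
      rwa [e] at this
  have hτ : ∀ k < J, -δ ≤ σs k ∧ σs k ≤ 1 / 2 - ws k - 6 * δ ∧ 0 ≤ 1 / 2 - ws k - 6 * δ ∧
      1 / 2 - ws k - 6 * δ ≤ 1 / 2 := by
    intro k hk
    obtain ⟨a, b⟩ := hmono k hk
    refine ⟨(hσ k hk).1, (hσ k hk).2, by linarith, by linarith⟩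
  set mm : ℕ → ℝ := fun k => cs k * HS ws k 0 with hmm
  set Sm' : ℕ → ℕ → ℝ := fun i j => (Sm i j + Sm j i) / 2 with hSm'
  have hSsym : ∀ i j, Sm' i j = Sm' j i := fun i j => by simp only [hSm']; ring
  obtain ⟨C₂, hC₂, hms'⟩ := hms J δ κ K ws cs σs hδ hδ1 hκ hw0 hws hcs hlast hσ hσ2 ρ hρ hρ0 hρ1
    mm Sm' hSsym
  set M : ℝ := ∑ k ∈ range J, mm k with hM
  obtain ⟨C₁, hC₁, hmean'⟩ := hmean J δ (1 + |K₁| + |K₁| ^ 3) |M| hδ hδ1
    (fun k => 1 / 2 - ws k - 6 * δ) σs hτ mm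
  have hCC : 0 ≤ C₁ * C₂ := mul_nonneg hC₁ (by linarith)
  refine ⟨min 1 (ε' / (C₁ * C₂ + 1)), lt_min one_pos (by positivity), ?_⟩
  intro I κ' hI hIK hκ' hκκ S cf cf' T hMD Y hY t lam ν ht htK hlam hlam1 hν hνK htl hr
  set ε₁ : ℝ := min 1 (ε' / (C₁ * C₂ + 1)) with hε₁
  have hε₁0 : 0 < ε₁ := lt_min one_pos (by positivity)
  have hε₁1 : ε₁ ≤ 1 := min_le_left _ _
  have hεb : C₁ * (C₂ * ε₁) ≤ ε' := by
    have h1 : ε₁ ≤ ε' / (C₁ * C₂ + 1) := min_le_right _ _
    calc C₁ * (C₂ * ε₁) = (C₁ * C₂) * ε₁ := by ring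
      _ ≤ (C₁ * C₂) * (ε' / (C₁ * C₂ + 1)) := mul_le_mul_of_nonneg_left h1 hCC
      _ ≤ (C₁ * C₂ + 1) * (ε' / (C₁ * C₂ + 1)) :=
          mul_le_mul_of_nonneg_right (by linarith) (by positivity)
      _ = ε' := by field_simp
  have hMS := hms' I κ' ε₁ hI hIK hκ' hκκ hε₁0 hε₁1 S cf cf' T (fp_symm hG hMD)
  set r : ℝ := 1 - t * lam ^ 2 + (t - 1) * ν ^ 2 with hrdef
  have hK₁ : 1 ≤ |K₁| := by
    have := le_abs_self K₁
    linarith
  have hrK : r ≤ 1 + |K₁| + |K₁| ^ 3 := by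
    have h1 : t - 1 ≤ |K₁| := by have := le_abs_self K₁; linarith
    have h2 : ν ≤ |K₁| := by have := le_abs_self K₁; linarith
    have h3 : ν ^ 2 ≤ |K₁| ^ 2 := pow_le_pow_left₀ hν h2 2
    have h4 : (t - 1) * ν ^ 2 ≤ |K₁| * |K₁| ^ 2 :=
      mul_le_mul h1 h3 (sq_nonneg _) (by linarith)
    have h5 : 0 ≤ t * lam ^ 2 := by positivity
    have h6 : |K₁| * |K₁| ^ 2 = |K₁| ^ 3 := by ring
    rw [hrdef]; linarith
  have htK' : t ≤ 1 + |K₁| + |K₁| ^ 3 := by
    have h1 := le_abs_self K₁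
    have h2 : 0 ≤ |K₁| ^ 3 := by positivity
    linarith
  have hv : (1 / 2 - Y) ∈ Set.Icc 0 (1 / 2 + δ) := ⟨by linarith [hY.2], by linarith [hY.1]⟩
  have key := hmean' (fun _ => M) t lam r (fun v _ => le_refl _) ht htK' hlam hlam1 hr hrK Sm'
    (Gam2 ρ ρ) hSsym hG I κ' (C₂ * ε₁) hI hκ' S cf cf' T hMS (1 / 2 - Y) hv (1 / 2 - Y) hv
  have hYY : (1 / 2 : ℝ) - (1 / 2 - Y) = Y := by ring
  simp only [hYY] at key
  have key2 := (abs_le.mp key).2
  -- the limit kernel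
  have ht0 : 0 ≤ t := by linarith
  have hY2 : Y ≤ 1 / 2 := hY.2
  set R : ℝ := 5 + 4 * r + 4 * t * κ with hR
  have hR0 : 0 ≤ R := by positivity
  have hRR : 5 + 4 * r + 4 * t * κ' ≤ R := by
    have : t * κ' ≤ t * κ := mul_le_mul_of_nonneg_left hκκ ht0
    rw [hR]; nlinarith
  have hR0' : 0 ≤ 5 + 4 * r + 4 * t * κ' := by positivity
  set mn : ℕ → ℝ := fun k => t * κ * max (Y - (1 / 2 - ws k - 6 * δ)) 0 +
      (r + t * κ * lam ^ 2) * max (min Y (1 / 2 - ws k - 6 * δ) - max (σs k) 0) 0 +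
      max (min Y (σs k)) 0 with hmn
  have hmn0 : ∀ k, 0 ≤ mn k := by
    intro k
    simp only [hmn]
    have : 0 ≤ r + t * κ * lam ^ 2 := by positivity
    positivity
  set X : ℕ → ℕ → ℝ := fun i j => XX (Gam2 ρ ρ) r t lam κ' (1 / 2 - ws i - 6 * δ) (σs i)
    (1 / 2 - ws j - 6 * δ) (σs j) Y Y with hX
  have hXd : ∀ k < J, X k k ≤ mn k + R * (3 / 2 * δ) := by
    intro k hk
    obtain ⟨-, b, c, d⟩ := hτ k hk
    have a1 := hx2 r t lam κ' (1 / 2 - ws k - 6 * δ) (σs k) (1 / 2 - ws k - 6 * δ) (σs k) Y Y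
      (3 / 2 * δ) (Gam2 ρ ρ) mnp hr ht0 hκ' hlam hlam1 hY2 hY2 hg2
    have a2 := hx1 r t lam κ' (1 / 2 - ws k - 6 * δ) (σs k) Y Y b c d hY2 hY2
    have a3 := fp_diag Y (1 / 2 - ws k - 6 * δ) (σs k) κ' κ r t lam c b hY2 ht0 hκκ hr hκ'
    have a4 := (abs_le.mp a1).2
    have a5 : (5 + 4 * r + 4 * t * κ') * (3 / 2 * δ) ≤ R * (3 / 2 * δ) :=
      mul_le_mul_of_nonneg_right hRR (by positivity)
    have a6 : XX (Gam2 ρ ρ) r t lam κ' (1 / 2 - ws k - 6 * δ) (σs k) (1 / 2 - ws k - 6 * δ) (σs k)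
        Y Y ≤ mn k + R * (3 / 2 * δ) := by
      simp only [hmn]
      linarith
    exact a6
  have hXo : ∀ i j, |X i j| ≤ R := by
    intro i j
    have a1 := hx2 r t lam κ' (1 / 2 - ws i - 6 * δ) (σs i) (1 / 2 - ws j - 6 * δ) (σs j) Y Y
      (3 / 2 * δ) (Gam2 ρ ρ) mnp hr ht0 hκ' hlam hlam1 hY2 hY2 hg2
    have a2 := hx3 r t lam κ' (1 / 2 - ws i - 6 * δ) (σs i) (1 / 2 - ws j - 6 * δ) (σs j) Y Y
      hr ht0 hκ' hlam hlam1 hY2 hY2
    have a3 : (5 + 4 * r + 4 * t * κ') * (3 / 2 * δ) + (5 + 4 * r + 4 * t * κ') * (1 / 2) ≤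
        5 + 4 * r + 4 * t * κ' := by nlinarith
    have a4 : |XX (Gam2 ρ ρ) r t lam κ' (1 / 2 - ws i - 6 * δ) (σs i) (1 / 2 - ws j - 6 * δ)
        (σs j) Y Y| ≤ R := by
      rw [abs_le] at a1 a2 ⊢
      constructor
      · linarith [a1.1, a2.1]
      · linarith [a1.2, a2.2]
    exact a4
  -- the double sum
  have hsum : ∑ i ∈ range J, ∑ j ∈ range J, Sm' i j * X i j ≤
      (∑ k ∈ range J, cs k ^ 2 * sk ws k * mn k) + R * (3 / 2 * δ * (∑ k ∈ range J,
        cs k ^ 2 * sk ws k) + 2 * δ * ∑ k ∈ range (J - 1), cs k * cs (k + 1)) := by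
    have hb : ∀ i ∈ range J, ∀ j ∈ range J, Sm' i j * X i j ≤
        (if i = j then cs i ^ 2 * sk ws i * (mn i + R * (3 / 2 * δ)) else 0) +
          R * (if i = j then 0 else |Sm' i j|) := by
      intro i hi j hj
      rw [mem_range] at hi hj
      by_cases h : i = j
      · subst h
        rw [if_pos rfl, if_pos rfl, mul_zero, add_zero]
        have s1 : Sm' i i = Sm i i := by simp only [hSm']; ring
        obtain ⟨s2, s3⟩ := hSd i hi
        rw [s1]
        have s4 : 0 ≤ mn i + R * (3 / 2 * δ) := add_nonneg (hmn0 i) (by positivity)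
        calc Sm i i * X i i ≤ Sm i i * (mn i + R * (3 / 2 * δ)) :=
              mul_le_mul_of_nonneg_left (hXd i hi) s2
          _ ≤ cs i ^ 2 * sk ws i * (mn i + R * (3 / 2 * δ)) :=
              mul_le_mul_of_nonneg_right s3 s4
      · rw [if_neg h, if_neg h, zero_add]
        calc Sm' i j * X i j ≤ |Sm' i j * X i j| := le_abs_self _
          _ = |X i j| * |Sm' i j| := by rw [abs_mul, mul_comm]
          _ ≤ R * |Sm' i j| := mul_le_mul_of_nonneg_right (hXo i j) (abs_nonneg _)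
    have hSo' : ∀ k < J, ∀ l < J, k ≠ l →
        |Sm' k l| ≤ if k = l + 1 ∨ l = k + 1 then δ * (cs k * cs l) else 0 := by
      intro k hk l hl hkl
      have a := hSo k hk l hl hkl
      have b := hSo l hl k hk (Ne.symm hkl)
      have e : (if l = k + 1 ∨ k = l + 1 then δ * (cs l * cs k) else 0) =
          if k = l + 1 ∨ l = k + 1 then δ * (cs k * cs l) else 0 := by
        by_cases h : k = l + 1 ∨ l = k + 1
        · rw [if_pos h, if_pos (Or.symm h)]; ring
        · rw [if_neg h, if_neg (fun h' => h (Or.symm h'))]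
      rw [e] at b
      simp only [hSm']
      rw [abs_le] at a b ⊢
      constructor
      · linarith [a.1, b.1]
      · linarith [a.2, b.2]
    have hoff := fp_off J δ hδ.le cs hcs Sm' hSo'
    calc ∑ i ∈ range J, ∑ j ∈ range J, Sm' i j * X i j
        ≤ ∑ i ∈ range J, ∑ j ∈ range J,
          ((if i = j then cs i ^ 2 * sk ws i * (mn i + R * (3 / 2 * δ)) else 0) +
          R * (if i = j then 0 else |Sm' i j|)) :=
          sum_le_sum fun i hi => sum_le_sum fun j hj => hb i hi j hj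
      _ = (∑ i ∈ range J, cs i ^ 2 * sk ws i * (mn i + R * (3 / 2 * δ))) +
          R * ∑ i ∈ range J, ∑ j ∈ range J, (if i = j then 0 else |Sm' i j|) := by
          simp only [sum_add_distrib]
          congr 1
          · refine sum_congr rfl fun i hi => ?_
            rw [Finset.sum_ite_eq, if_pos hi]
          · simp only [mul_sum]
      _ ≤ (∑ i ∈ range J, cs i ^ 2 * sk ws i * (mn i + R * (3 / 2 * δ))) +
          R * (2 * δ * ∑ k ∈ range (J - 1), cs k * cs (k + 1)) := by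
          have := mul_le_mul_of_nonneg_left hoff hR0
          linarith
      _ = _ := by
          simp only [mul_add, sum_add_distrib]
          have : ∑ i ∈ range J, cs i ^ 2 * sk ws i * (R * (3 / 2 * δ)) =
              R * (3 / 2 * δ * ∑ k ∈ range J, cs k ^ 2 * sk ws k) := by
            rw [mul_sum, mul_sum]
            exact sum_congr rfl fun i _ => by ring
          rw [this]; ring
  -- the splitting for every discriminant
  have hpt : ∑ d ∈ S, cf d * (∑ k ∈ range J, (cs k * HS ws k 0 - T k d Y)) ^ 2 ≤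
      (∑ d ∈ S, cf d * ((M - ∑ k ∈ range J, T k d (min Y (σs k))) *
        (M - ∑ k ∈ range J, T k d (min Y (σs k))) -
      2 * ((M - ∑ k ∈ range J, T k d (min Y (σs k))) *
        ∑ k ∈ range J, (T k d Y - T k d (min Y (σs k)))) +
      r * ((∑ k ∈ range J, (T k d (min Y (1 / 2 - ws k - 6 * δ)) - T k d (min Y (σs k)))) *
        ∑ k ∈ range J, (T k d (min Y (1 / 2 - ws k - 6 * δ)) - T k d (min Y (σs k)))))) +
      t * (∑ d ∈ S, cf' d * ((∑ k ∈ range J,
        cmb 1 (lam - 1) (-lam) (1 / 2 - ws k - 6 * δ) (σs k) (T k d) Y) *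
        ∑ k ∈ range J, cmb 1 (lam - 1) (-lam) (1 / 2 - ws k - 6 * δ) (σs k) (T k d) Y)) := by
    rw [mul_sum, ← sum_add_distrib]
    refine sum_le_sum fun d hd => ?_
    obtain ⟨c1, c2⟩ := hMD.nn d hd
    set F := M - ∑ k ∈ range J, T k d (min Y (σs k)) with hF
    set A := ∑ k ∈ range J, (T k d (min Y (1 / 2 - ws k - 6 * δ)) - T k d (min Y (σs k))) with hA
    set B := ∑ k ∈ range J, (T k d Y - T k d (min Y (1 / 2 - ws k - 6 * δ))) with hB
    have e1 : ∑ k ∈ range J, (T k d Y - T k d (min Y (σs k))) = A + B := by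
      rw [hA, hB, ← sum_add_distrib]
      exact sum_congr rfl fun k _ => by ring
    have e2 : ∑ k ∈ range J, cmb 1 (lam - 1) (-lam) (1 / 2 - ws k - 6 * δ) (σs k) (T k d) Y =
        B + lam * A := by
      rw [hA, hB, mul_sum, ← sum_add_distrib]
      refine sum_congr rfl fun k _ => ?_
      simp only [cmb]; ring
    have e3 : ∑ k ∈ range J, (cs k * HS ws k 0 - T k d Y) = F - (A + B) := by
      rw [← e1, hF, hM, sub_sub, ← sum_add_distrib, ← sum_sub_distrib]
      refine sum_congr rfl fun k _ => ?_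
      simp only [hmm]; ring
    rw [e1, e2, e3]
    have h1 := fp_split F A B t lam ν ht htl
    have h2 := mul_le_mul_of_nonneg_left h1 c1
    have h3 : 0 ≤ t * ((B + lam * A) * (B + lam * A)) := mul_nonneg ht0 (mul_self_nonneg _)
    have h4 := mul_le_mul_of_nonneg_right c2 h3
    rw [← hrdef] at h2
    have h5 : t * (cf' d * ((B + lam * A) * (B + lam * A))) =
        cf' d * (t * ((B + lam * A) * (B + lam * A))) := by ring
    rw [h5]
    linarith
  have hI2 := mul_le_mul_of_nonneg_left hsum hI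
  have e0 : M - M = 0 := sub_self M
  rw [e0] at key2
  simp only [mul_zero, zero_add] at key2
  have hX2 : ∑ i ∈ range J, ∑ j ∈ range J, Sm' i j * XX (Gam2 ρ ρ) r t lam κ'
      (1 / 2 - ws i - 6 * δ) (σs i) (1 / 2 - ws j - 6 * δ) (σs j) Y Y =
      ∑ i ∈ range J, ∑ j ∈ range J, Sm' i j * X i j := rfl
  rw [hX2] at key2
  have hfin : I * ((∑ k ∈ range J, cs k ^ 2 * sk ws k * mn k) +
      R * (3 / 2 * δ * (∑ k ∈ range J, cs k ^ 2 * sk ws k) +
        2 * δ * ∑ k ∈ range (J - 1), cs k * cs (k + 1))) + ε' =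
    I * ((∑ k ∈ range J, cs k ^ 2 * sk ws k * (t * κ * max (Y - (1 / 2 - ws k - 6 * δ)) 0 +
      (r + t * κ * lam ^ 2) *
        max (min Y (1 / 2 - ws k - 6 * δ) - max (σs k) 0) 0 +
      max (min Y (σs k)) 0)) +
      (5 + 4 * r + 4 * t * κ) *
        (3 / 2 * δ * (∑ k ∈ range J, cs k ^ 2 * sk ws k) +
          2 * δ * ∑ k ∈ range (J - 1), cs k * cs (k + 1))) + ε' := rfl
  rw [← hfin]
  linarith

end Pool.Agent.MP0016c7.PC
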