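import Mathlib
import Pool.Agent.Lib.MP_0016c7_nt.PC.GStm

set_option autoImplicit false

open Finset MeasureTheory Filter Topology
open scoped Real ContDiff

namespace Pool.Agent.MP0016c7.PC

open Pool.Agent.MP0016c7.Rz

private theorem ggam_conv {δ : ℝ} {ρ : ℝ → ℝ} (hρ : Bump ρ (-(δ / 2)) (δ / 2)) (g : ℝ → ℝ) :
    (∫ y, ρ y * g y) = ∫ y in (-(δ / 2))..(δ / 2), ρ y * g y := by
  symm
  refine intervalIntegral.integral_eq_integral_of_support_subset ?_
  intro y hy
  have h1 : ρ y ≠ 0 := by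
    intro h0
    exact hy (by simp [h0])
  have h2 := hρ.supp y h1
  exact ⟨h2.1, h2.2.le⟩

private theorem ggam_one {δ : ℝ} {ρ : ℝ → ℝ} (hρ : Bump ρ (-(δ / 2)) (δ / 2))
    (h1 : (∫ y, ρ y) = 1) : (∫ y in (-(δ / 2))..(δ / 2), ρ y) = 1 := by
  have h := ggam_conv hρ (fun _ => 1)
  simp only [mul_one] at h
  rw [← h, h1]

private theorem ggam_dbl {δ : ℝ} {ρ : ℝ → ℝ} (hρ : Bump ρ (-(δ / 2)) (δ / 2))
    (K : ℝ → ℝ → ℝ) :
    (∫ x : ℝ, ∫ y : ℝ, ρ x * ρ y * K x y) =
      ∫ x in (-(δ / 2))..(δ / 2), ∫ y in (-(δ / 2))..(δ / 2), ρ x * ρ y * K x y := by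
  have e1 : ∀ x : ℝ, (∫ y : ℝ, ρ x * ρ y * K x y) =
      ρ x * ∫ y in (-(δ / 2))..(δ / 2), ρ y * K x y := by
    intro x
    rw [← ggam_conv hρ, ← integral_const_mul]
    congr 1
    funext y
    ring
  simp only [e1]
  rw [ggam_conv hρ]
  refine intervalIntegral.integral_congr (fun x _ => ?_)
  show ρ x * (∫ y in (-(δ / 2))..(δ / 2), ρ y * K x y) =
    ∫ y in (-(δ / 2))..(δ / 2), ρ x * ρ y * K x y
  rw [← intervalIntegral.integral_const_mul]
  refine intervalIntegral.integral_congr (fun y _ => ?_)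
  show ρ x * (ρ y * K x y) = ρ x * ρ y * K x y
  ring

private theorem ggam_bd {δ : ℝ} (hδ : 0 < δ) {ρ : ℝ → ℝ} (hρ : Bump ρ (-(δ / 2)) (δ / 2))
    (h0 : ∀ y, 0 ≤ ρ y) (h1 : (∫ y, ρ y) = 1) {K : ℝ → ℝ → ℝ}
    (hK : Continuous (fun p : ℝ × ℝ => K p.1 p.2)) (c M : ℝ)
    (hM : ∀ x ∈ Set.Icc (-(δ / 2)) (δ / 2), ∀ y ∈ Set.Icc (-(δ / 2)) (δ / 2),
      |K x y - c| ≤ M) :
    |(∫ x : ℝ, ∫ y : ℝ, ρ x * ρ y * K x y) - c| ≤ M := by
  have hρc : Continuous ρ := hρ.smooth.continuous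
  have hle : -(δ / 2) ≤ δ / 2 := by linarith
  have ho := ggam_one hρ h1
  rw [ggam_dbl hρ]
  have hcJ : Continuous (fun x => ∫ y in (-(δ / 2))..(δ / 2), ρ x * ρ y * K x y) := by
    refine intervalIntegral.continuous_parametric_intervalIntegral_of_continuous' ?_ _ _
    exact ((hρc.comp continuous_fst).mul (hρc.comp continuous_snd)).mul hK
  have hin : ∀ x ∈ Set.Icc (-(δ / 2)) (δ / 2),
      |(∫ y in (-(δ / 2))..(δ / 2), ρ x * ρ y * K x y) - ρ x * c| ≤ ρ x * M := by
    intro x hx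
    have hc1 : Continuous (fun y => ρ x * ρ y * K x y) :=
      (continuous_const.mul hρc).mul (hK.comp (continuous_const.prodMk continuous_id))
    have hc2 : Continuous (fun y => ρ x * ρ y * c) := (continuous_const.mul hρc).mul continuous_const
    have hc3 : Continuous (fun y => ρ x * ρ y * M) := (continuous_const.mul hρc).mul continuous_const
    have e2 : ρ x * c = ∫ y in (-(δ / 2))..(δ / 2), ρ x * ρ y * c := by
      rw [intervalIntegral.integral_mul_const, intervalIntegral.integral_const_mul, ho, mul_one]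
    have e3 : ρ x * M = ∫ y in (-(δ / 2))..(δ / 2), ρ x * ρ y * M := by
      rw [intervalIntegral.integral_mul_const, intervalIntegral.integral_const_mul, ho, mul_one]
    rw [e2, e3, ← intervalIntegral.integral_sub (hc1.intervalIntegrable _ _)
      (hc2.intervalIntegrable _ _)]
    refine (intervalIntegral.abs_integral_le_integral_abs hle).trans ?_
    refine intervalIntegral.integral_mono_on hle ((hc1.sub hc2).abs.intervalIntegrable _ _)
      (hc3.intervalIntegrable _ _) ?_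
    intro y hy
    have h5 : ρ x * ρ y * K x y - ρ x * ρ y * c = ρ x * ρ y * (K x y - c) := by ring
    have h6 : 0 ≤ ρ x * ρ y := mul_nonneg (h0 x) (h0 y)
    rw [h5, abs_mul, abs_of_nonneg h6]
    exact mul_le_mul_of_nonneg_left (hM x hx y hy) h6
  have hc4 : Continuous (fun x => ρ x * c) := hρc.mul continuous_const
  have hc5 : Continuous (fun x => ρ x * M) := hρc.mul continuous_const
  have e4 : c = ∫ x in (-(δ / 2))..(δ / 2), ρ x * c := by
    rw [intervalIntegral.integral_mul_const, ho, one_mul]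
  have e5 : M = ∫ x in (-(δ / 2))..(δ / 2), ρ x * M := by
    rw [intervalIntegral.integral_mul_const, ho, one_mul]
  have e6 : (∫ x in (-(δ / 2))..(δ / 2), ∫ y in (-(δ / 2))..(δ / 2), ρ x * ρ y * K x y) - c =
      ∫ x in (-(δ / 2))..(δ / 2),
        ((∫ y in (-(δ / 2))..(δ / 2), ρ x * ρ y * K x y) - ρ x * c) := by
    rw [intervalIntegral.integral_sub (hcJ.intervalIntegrable _ _)
      (hc4.intervalIntegrable _ _), ← e4]
  rw [e6]
  refine (intervalIntegral.abs_integral_le_integral_abs hle).trans ?_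
  calc (∫ x in (-(δ / 2))..(δ / 2),
        |(∫ y in (-(δ / 2))..(δ / 2), ρ x * ρ y * K x y) - ρ x * c|) ≤
      ∫ x in (-(δ / 2))..(δ / 2), ρ x * M :=
        intervalIntegral.integral_mono_on hle ((hcJ.sub hc4).abs.intervalIntegrable _ _)
          (hc5.intervalIntegrable _ _) hin
    _ = M := e5.symm

theorem p_G_gam : G_gam := by
  intro δ ρ hδ hρ h0 h1
  have hρc : Continuous ρ := hρ.smooth.continuous
  refine ⟨?_, ?_, ?_⟩
  · have e : (fun p : ℝ × ℝ => Gam2 ρ ρ p.1 p.2) = fun p : ℝ × ℝ =>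
        ∫ x in (-(δ / 2))..(δ / 2), ∫ y in (-(δ / 2))..(δ / 2), ρ x * ρ y *
          (max (min (p.1 - x) (p.2 - y)) 0 - max (p.1 - x + (p.2 - y) - 1) 0) := by
      funext p
      exact ggam_dbl hρ (fun x y => max (min (p.1 - x) (p.2 - y)) 0 -
        max (p.1 - x + (p.2 - y) - 1) 0)
    rw [e]
    refine intervalIntegral.continuous_parametric_intervalIntegral_of_continuous' ?_ _ _
    have h2 : Continuous (fun q : (ℝ × ℝ) × ℝ => ∫ y in (-(δ / 2))..(δ / 2), ρ q.2 * ρ y *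
          (max (min (q.1.1 - q.2) (q.1.2 - y)) 0 - max (q.1.1 - q.2 + (q.1.2 - y) - 1) 0)) := by
      refine intervalIntegral.continuous_parametric_intervalIntegral_of_continuous' ?_ _ _
      have h3 : Continuous (fun s : ((ℝ × ℝ) × ℝ) × ℝ => ρ s.1.2 * ρ s.2 *
          (max (min (s.1.1.1 - s.1.2) (s.1.1.2 - s.2)) 0 -
            max (s.1.1.1 - s.1.2 + (s.1.1.2 - s.2) - 1) 0)) := by
        fun_prop
      exact h3
    exact h2
  · intro Y₁ hY₁ Y₂ hY₂
    have hK : Continuous (fun p : ℝ × ℝ => (fun x y => max (min (Y₁ - x) (Y₂ - y)) 0 -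
        max (Y₁ - x + (Y₂ - y) - 1) 0) p.1 p.2) := by
      show Continuous (fun p : ℝ × ℝ => max (min (Y₁ - p.1) (Y₂ - p.2)) 0 -
        max (Y₁ - p.1 + (Y₂ - p.2) - 1) 0)
      fun_prop
    refine ggam_bd hδ hρ h0 h1 hK (mnp Y₁ Y₂) (3 / 2 * δ) ?_
    intro x hx y hy
    show |max (min (Y₁ - x) (Y₂ - y)) 0 - max (Y₁ - x + (Y₂ - y) - 1) 0 -
      max (min Y₁ Y₂) 0| ≤ 3 / 2 * δ
    obtain ⟨hx1, hx2⟩ := hx
    obtain ⟨hy1, hy2⟩ := hy
    have b1 : |max (min (Y₁ - x) (Y₂ - y)) 0 - max (min Y₁ Y₂) 0| ≤ δ / 2 := by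
      refine (abs_max_sub_max_le_abs _ _ _).trans ?_
      rw [abs_le]
      constructor
      · have : min Y₁ Y₂ - δ / 2 ≤ min (Y₁ - x) (Y₂ - y) := by
          refine le_min ?_ ?_
          · have := min_le_left Y₁ Y₂; linarith
          · have := min_le_right Y₁ Y₂; linarith
        linarith
      · have : min (Y₁ - x) (Y₂ - y) - δ / 2 ≤ min Y₁ Y₂ := by
          refine le_min ?_ ?_
          · have := min_le_left (Y₁ - x) (Y₂ - y); linarith
          · have := min_le_right (Y₁ - x) (Y₂ - y); linarith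
        linarith
    have b2 : |max (Y₁ - x + (Y₂ - y) - 1) 0| ≤ δ := by
      rw [abs_of_nonneg (le_max_right _ _)]
      exact max_le (by linarith) hδ.le
    have e : max (min (Y₁ - x) (Y₂ - y)) 0 - max (Y₁ - x + (Y₂ - y) - 1) 0 -
      max (min Y₁ Y₂) 0 = (max (min (Y₁ - x) (Y₂ - y)) 0 - max (min Y₁ Y₂) 0) -
        max (Y₁ - x + (Y₂ - y) - 1) 0 := by ring
    rw [e]
    refine (abs_sub _ _).trans ?_
    linarith
  · intro Y₁ hY₁ Y₂ hY₂
    have hz : ∀ x y : ℝ, -(δ / 2) < x → -(δ / 2) < y → max (min (Y₁ - x) (Y₂ - y)) 0 = 0 ∧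
        max (Y₁ - x + (Y₂ - y) - 1) 0 = 0 := by
      intro x y hx hy
      constructor
      · refine max_eq_right ?_
        have := min_le_left (Y₁ - x) (Y₂ - y)
        linarith
      · exact max_eq_right (by linarith)
    constructor
    · unfold Gam2
      have e : ∀ x y : ℝ, ρ x * ρ y * (max (min (Y₁ - x) (Y₂ - y)) 0 -
          max (Y₁ - x + (Y₂ - y) - 1) 0) = 0 := by
        intro x y
        by_cases hx : ρ x = 0
        · simp [hx]
        · by_cases hy : ρ y = 0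
          · simp [hy]
          · obtain ⟨a, b⟩ := hz x y (hρ.supp x hx).1 (hρ.supp y hy).1
            rw [a, b]
            ring
      simp only [e]
      simp
    · unfold Gam2
      have e : ∀ x y : ℝ, ρ x * ρ y * (max (min (Y₂ - x) (Y₁ - y)) 0 -
          max (Y₂ - x + (Y₁ - y) - 1) 0) = 0 := by
        intro x y
        by_cases hx : ρ x = 0
        · simp [hx]
        · by_cases hy : ρ y = 0
          · simp [hy]
          · obtain ⟨a, b⟩ := hz y x (hρ.supp y hy).1 (hρ.supp x hx).1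
            rw [min_comm, a, add_comm (Y₂ - x), b]
            ring
      simp only [e]
      simp

end Pool.Agent.MP0016c7.PC
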