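import Mathlib
import Pool.Agent.Lib.MP_0016c7_nt.PC.GStm

set_option autoImplicit false

/-!
Piece `G_lev` of block [G] of the project PrimeConductors.
-/

open Finset MeasureTheory Filter Topology
open scoped Real ContDiff

namespace Pool.Agent.MP0016c7.PC

open Pool.Agent.MP0016c7.Rz

private lemma glev_ind (t a b : ℝ) (hab : a ≤ b) :
    ∫ x in a..b, (if t < x then (1 : ℝ) else 0) = max (min (b - t) (b - a)) 0 := by
  have hint : ∀ p q : ℝ, IntervalIntegrable (fun x => if t < x then (1 : ℝ) else 0) volume p q := by
    intro p q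
    have hm : Measurable (fun x : ℝ => if t < x then (1 : ℝ) else 0) :=
      Measurable.ite (measurableSet_lt measurable_const measurable_id) measurable_const
        measurable_const
    have h1 : IntervalIntegrable (fun _ : ℝ => (1 : ℝ)) volume p q := intervalIntegrable_const
    refine h1.mono_fun hm.aestronglyMeasurable ?_
    refine Filter.Eventually.of_forall fun x => ?_
    dsimp only
    split_ifs <;> simp
  have hone : ∀ p q : ℝ, t ≤ p → p ≤ q →
      ∫ x in p..q, (if t < x then (1 : ℝ) else 0) = q - p := by
    intro p q htp hpq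
    have : ∫ x in p..q, (if t < x then (1 : ℝ) else 0) = ∫ x in p..q, (1 : ℝ) := by
      refine intervalIntegral.integral_congr_ae (Filter.Eventually.of_forall fun x hx => ?_)
      rw [Set.uIoc_of_le hpq] at hx
      rw [if_pos (lt_of_le_of_lt htp hx.1)]
    rw [this, intervalIntegral.integral_const]
    simp
  have hzero : ∀ p q : ℝ, q ≤ t → p ≤ q →
      ∫ x in p..q, (if t < x then (1 : ℝ) else 0) = 0 := by
    intro p q hqt hpq
    have : ∫ x in p..q, (if t < x then (1 : ℝ) else 0) = ∫ x in p..q, (0 : ℝ) := by
      refine intervalIntegral.integral_congr_ae (Filter.Eventually.of_forall fun x hx => ?_)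
      rw [Set.uIoc_of_le hpq] at hx
      rw [if_neg (not_lt.mpr (hx.2.trans hqt))]
    rw [this]
    simp
  rcases le_total t a with h1 | h1
  · rw [hone a b h1 hab, min_eq_right (by linarith), max_eq_left (by linarith)]
  · rcases le_total t b with h2 | h2
    · rw [← intervalIntegral.integral_add_adjacent_intervals (hint a t) (hint t b),
        hzero a t le_rfl h1, hone t b le_rfl h2, min_eq_left (by linarith),
        max_eq_left (by linarith), zero_add]
    · rw [hzero a b h2 hab, max_eq_right]
      exact (min_le_left _ _).trans (by linarith)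

private lemma glev_ker (v v' α β : ℝ) (hα : 0 ≤ α) (hαβ : α ≤ β) :
    max (min (min (1 / 2 - v) (1 / 2 - v')) β) 0 - max (min (min (1 / 2 - v) (1 / 2 - v')) α) 0 =
      ∫ x in (1 / 2 - β)..(1 / 2 - α), (if v' < x then (if v < x then (1 : ℝ) else 0) else 0) := by
  have h0 : (fun x : ℝ => (if v' < x then (if v < x then (1 : ℝ) else 0) else 0)) =
      fun x : ℝ => if max v v' < x then (1 : ℝ) else 0 := by
    funext x
    by_cases h1 : v' < x <;> by_cases h2 : v < x <;> simp [h1, h2]
  rw [h0, glev_ind _ _ _ (by linarith)]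
  have h1 : min (1 / 2 - v) (1 / 2 - v') = 1 / 2 - max v v' := by
    rcases le_total v v' with h | h
    · rw [max_eq_right h, min_eq_right (by linarith)]
    · rw [max_eq_left h, min_eq_left (by linarith)]
  rw [h1]
  set t := max v v'
  rcases le_total (1 / 2 - t) α with h2 | h2
  · rw [min_eq_left h2, min_eq_left (h2.trans hαβ), sub_self,
      max_eq_right ((min_le_left _ _).trans (by linarith))]
  · rcases le_total (1 / 2 - t) β with h3 | h3
    · rw [min_eq_left h3, min_eq_right h2, max_eq_left (by linarith), max_eq_left hα,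
        min_eq_left (by linarith), max_eq_left (by linarith)]
      ring
    · rw [min_eq_right h3, min_eq_right h2, max_eq_left (by linarith), max_eq_left hα,
        min_eq_right (by linarith), max_eq_left (by linarith)]
      ring

private lemma glev_fub (u F : ℝ → ℝ) (V a b : ℝ) (h0a : 0 ≤ a) (hab : a ≤ b) (hbV : b ≤ V)
    (hu : Continuous u) (hF : IntervalIntegrable F volume a b) :
    ∫ v in (0 : ℝ)..V, u v * (∫ x in a..b, (if v < x then F x else 0)) =
      ∫ x in a..b, F x * ∫ v in (0 : ℝ)..x, u v := by
  have h0V : 0 ≤ V := h0a.trans (hab.trans hbV)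
  have hu' : IntegrableOn u (Set.Ioc 0 V) := (hu.intervalIntegrable 0 V).1
  have hF' : IntegrableOn F (Set.Ioc a b) := hF.1
  have hpr : Integrable (fun z : ℝ × ℝ => u z.1 * (if z.1 < z.2 then F z.2 else 0))
      ((volume.restrict (Set.Ioc 0 V)).prod (volume.restrict (Set.Ioc a b))) := by
    have h1 := hu'.mul_prod hF'
    have h2 := h1.indicator (measurableSet_lt (measurable_fst (α := ℝ) (β := ℝ)) measurable_snd)
    refine h2.congr (Filter.Eventually.of_forall fun z => ?_)
    by_cases hz : z.1 < z.2
    · simp [Set.indicator, hz]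
    · simp [Set.indicator, hz]
  calc ∫ v in (0 : ℝ)..V, u v * (∫ x in a..b, (if v < x then F x else 0))
      = ∫ v in Set.Ioc 0 V, ∫ x in Set.Ioc a b, u v * (if v < x then F x else 0) := by
        rw [intervalIntegral.integral_of_le h0V]
        refine integral_congr_ae (Filter.Eventually.of_forall fun v => ?_)
        dsimp only
        rw [intervalIntegral.integral_of_le hab, integral_const_mul]
    _ = ∫ x in Set.Ioc a b, ∫ v in Set.Ioc 0 V, u v * (if v < x then F x else 0) :=
        integral_integral_swap hpr
    _ = ∫ x in a..b, F x * ∫ v in (0 : ℝ)..x, u v := by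
        rw [intervalIntegral.integral_of_le hab]
        refine setIntegral_congr_fun measurableSet_Ioc fun x hx => ?_
        have hx0 : 0 ≤ x := h0a.trans hx.1.le
        have hxV : x ≤ V := hx.2.trans hbV
        rw [intervalIntegral.integral_of_le hx0]
        have h3 : ∀ v ∈ Set.Ioc 0 V, u v * (if v < x then F x else 0) =
            (Set.Iio x).indicator (fun v => F x * u v) v := by
          intro v _
          by_cases hv : v < x
          · rw [if_pos hv, Set.indicator_of_mem (Set.mem_Iio.mpr hv)]; ring
          · rw [if_neg hv, Set.indicator_of_notMem (by simpa using hv)]; ring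
        rw [setIntegral_congr_fun measurableSet_Ioc h3, setIntegral_indicator measurableSet_Iio]
        have h4 : Set.Ioc 0 V ∩ Set.Iio x = Set.Ioo 0 x := by
          ext v
          simp only [Set.mem_inter_iff, Set.mem_Ioc, Set.mem_Iio, Set.mem_Ioo]
          constructor
          · rintro ⟨⟨h5, _⟩, h6⟩; exact ⟨h5, h6⟩
          · rintro ⟨h5, h6⟩; exact ⟨⟨h5, (h6.le.trans hxV)⟩, h6⟩
        rw [h4, integral_const_mul, ← integral_Ioc_eq_integral_Ioo]

private lemma glev_dbl (u : ℝ → ℝ) (V a b : ℝ) (h0a : 0 ≤ a) (hab : a ≤ b) (hbV : b ≤ V)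
    (hu : Continuous u) :
    ∫ v in (0 : ℝ)..V, ∫ v' in (0 : ℝ)..V, u v * u v' *
        (∫ x in a..b, (if v' < x then (if v < x then (1 : ℝ) else 0) else 0)) =
      ∫ x in a..b, (∫ v in (0 : ℝ)..x, u v) ^ 2 := by
  have hUc : Continuous fun x : ℝ => ∫ v in (0 : ℝ)..x, u v :=
    intervalIntegral.continuous_primitive (fun p q => hu.intervalIntegrable p q) 0
  have hin : ∀ v : ℝ, ∫ v' in (0 : ℝ)..V, u v * u v' *
        (∫ x in a..b, (if v' < x then (if v < x then (1 : ℝ) else 0) else 0)) =
      u v * ∫ x in a..b, (if v < x then (∫ s in (0 : ℝ)..x, u s) else 0) := by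
    intro v
    have hFi : IntervalIntegrable (fun x : ℝ => if v < x then (1 : ℝ) else 0) volume a b := by
      have hm : Measurable (fun x : ℝ => if v < x then (1 : ℝ) else 0) :=
        Measurable.ite (measurableSet_lt measurable_const measurable_id) measurable_const
          measurable_const
      have h1 : IntervalIntegrable (fun _ : ℝ => (1 : ℝ)) volume a b := intervalIntegrable_const
      refine h1.mono_fun hm.aestronglyMeasurable ?_
      refine Filter.Eventually.of_forall fun x => ?_
      dsimp only
      split_ifs <;> simp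
    have h2 := glev_fub u (fun x => if v < x then (1 : ℝ) else 0) V a b h0a hab hbV hu hFi
    have h3 : ∀ v' : ℝ, u v * u v' *
        (∫ x in a..b, (if v' < x then (if v < x then (1 : ℝ) else 0) else 0)) =
        u v * (u v' * (∫ x in a..b, (if v' < x then (if v < x then (1 : ℝ) else 0) else 0))) :=
      fun v' => by ring
    rw [intervalIntegral.integral_congr (g := fun v' => u v * (u v' * (∫ x in a..b,
      (if v' < x then (if v < x then (1 : ℝ) else 0) else 0)))) (fun v' _ => h3 v'),
      intervalIntegral.integral_const_mul, h2]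
    congr 1
    refine intervalIntegral.integral_congr fun x _ => ?_
    split_ifs <;> simp
  rw [intervalIntegral.integral_congr (fun v _ => hin v),
    glev_fub u (fun x => ∫ s in (0 : ℝ)..x, u s) V a b h0a hab hbV hu (hUc.intervalIntegrable a b)]
  refine intervalIntegral.integral_congr fun x _ => ?_
  ring

theorem p_G_lev : G_lev := by
  intro w u₁ u₂ g₁ g₂ V α β hw hu₁ hu₂ hV hα hαβ hβ
  have ha0 : (0 : ℝ) ≤ 1 / 2 - β := by linarith
  have hab : (1 / 2 - β : ℝ) ≤ 1 / 2 - α := by linarith
  have hbV : (1 / 2 - α : ℝ) ≤ V := by linarith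
  have hker : (fun v v' : ℝ => max (min (min (1 / 2 - v) (1 / 2 - v')) β) 0 -
      max (min (min (1 / 2 - v) (1 / 2 - v')) α) 0) = fun v v' : ℝ =>
      ∫ x in (1 / 2 - β)..(1 / 2 - α), (if v' < x then (if v < x then (1 : ℝ) else 0) else 0) := by
    funext v v'
    exact glev_ker v v' α β hα hαβ
  have hprim : ∀ u : ℝ → ℝ, Continuous u → Continuous fun x : ℝ => ∫ v in (0 : ℝ)..x, u v :=
    fun u hu => intervalIntegral.continuous_primitive (fun p q => hu.intervalIntegrable p q) 0
  rw [hker]
  unfold BCk Kq
  rw [glev_dbl u₁ V _ _ ha0 hab hbV hu₁, glev_dbl u₂ V _ _ ha0 hab hbV hu₂]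
  have h1 : ∫ v in (0 : ℝ)..V, w v * (∫ x in (1 / 2 - β)..(1 / 2 - α),
      (if v < x then (if v < x then (1 : ℝ) else 0) else 0)) =
      ∫ x in (1 / 2 - β)..(1 / 2 - α), ∫ v in (0 : ℝ)..x, w v := by
    have h2 := glev_fub w (fun _ => (1 : ℝ)) V _ _ ha0 hab hbV hw intervalIntegrable_const
    have h3 : ∀ v : ℝ, (∫ x in (1 / 2 - β)..(1 / 2 - α),
        (if v < x then (if v < x then (1 : ℝ) else 0) else 0)) =
        ∫ x in (1 / 2 - β)..(1 / 2 - α), (if v < x then (1 : ℝ) else 0) := by
      intro v
      refine intervalIntegral.integral_congr fun x _ => ?_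
      split_ifs <;> rfl
    rw [intervalIntegral.integral_congr (g := fun v => w v * (∫ x in (1 / 2 - β)..(1 / 2 - α),
      (if v < x then (1 : ℝ) else 0))) (fun v _ => by dsimp only; rw [h3 v]), h2]
    refine intervalIntegral.integral_congr fun x _ => ?_
    ring
  rw [h1, intervalIntegral.integral_add, intervalIntegral.integral_add,
    intervalIntegral.integral_const_mul, intervalIntegral.integral_const_mul]
  · exact (hprim w hw).intervalIntegrable _ _
  · exact (((hprim u₁ hu₁).pow 2).const_mul _).intervalIntegrable _ _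
  · exact ((hprim w hw).add (((hprim u₁ hu₁).pow 2).const_mul _)).intervalIntegrable _ _
  · exact (((hprim u₂ hu₂).pow 2).const_mul _).intervalIntegrable _ _

end Pool.Agent.MP0016c7.PC
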