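import Mathlib
import Pool.Agent.Lib.MP_0016c7_nt.PC.GStm

set_option autoImplicit false

open Finset MeasureTheory Filter Topology
open scoped Real ContDiff

namespace Pool.Agent.MP0016c7.PC

open Pool.Agent.MP0016c7.Rz

private theorem glin_inner {u : ℝ → ℝ} {V : ℝ} {C : ℝ → ℝ → ℝ} (hu : Continuous u)
    (hC : Continuous (fun p : ℝ × ℝ => C p.1 p.2)) :
    Continuous (fun v => ∫ v' in (0 : ℝ)..V, u v * u v' * C v v') := by
  refine intervalIntegral.continuous_parametric_intervalIntegral_of_continuous' ?_ _ _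
  exact ((hu.comp continuous_fst).mul (hu.comp continuous_snd)).mul hC

private theorem glin_lin {f g : ℝ → ℝ} (hf : Continuous f) (hg : Continuous g) (a b V : ℝ) :
    (∫ v in (0 : ℝ)..V, (a * f v + b * g v)) =
      a * (∫ v in (0 : ℝ)..V, f v) + b * ∫ v in (0 : ℝ)..V, g v := by
  have h1 : IntervalIntegrable (fun v => a * f v) volume 0 V :=
    (continuous_const.mul hf).intervalIntegrable _ _
  have h2 : IntervalIntegrable (fun v => b * g v) volume 0 V :=
    (continuous_const.mul hg).intervalIntegrable _ _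
  rw [intervalIntegral.integral_add h1 h2,
    intervalIntegral.integral_const_mul, intervalIntegral.integral_const_mul]

private theorem glin_dbl {u : ℝ → ℝ} {V : ℝ} {C C' : ℝ → ℝ → ℝ} (hu : Continuous u)
    (hC : Continuous (fun p : ℝ × ℝ => C p.1 p.2))
    (hC' : Continuous (fun p : ℝ × ℝ => C' p.1 p.2)) (a b : ℝ) :
    (∫ v in (0 : ℝ)..V, ∫ v' in (0 : ℝ)..V, u v * u v' * (a * C v v' + b * C' v v')) =
      a * (∫ v in (0 : ℝ)..V, ∫ v' in (0 : ℝ)..V, u v * u v' * C v v') +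
        b * ∫ v in (0 : ℝ)..V, ∫ v' in (0 : ℝ)..V, u v * u v' * C' v v' := by
  rw [← glin_lin (glin_inner hu hC) (glin_inner hu hC')]
  refine intervalIntegral.integral_congr (fun v _ => ?_)
  have h1 : Continuous (fun v' => u v * u v' * C v v') :=
    (continuous_const.mul hu).mul (hC.comp (continuous_const.prodMk continuous_id))
  have h2 : Continuous (fun v' => u v * u v' * C' v v') :=
    (continuous_const.mul hu).mul (hC'.comp (continuous_const.prodMk continuous_id))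
  have h3 := glin_lin h1 h2 a b V
  show (∫ v' in (0 : ℝ)..V, u v * u v' * (a * C v v' + b * C' v v')) =
    a * (∫ v' in (0 : ℝ)..V, u v * u v' * C v v') + b * ∫ v' in (0 : ℝ)..V, u v * u v' * C' v v'
  rw [← h3]
  refine intervalIntegral.integral_congr (fun v' _ => ?_)
  show u v * u v' * (a * C v v' + b * C' v v') =
    a * (u v * u v' * C v v') + b * (u v * u v' * C' v v')
  ring

private theorem glin_two {w u₁ u₂ : ℝ → ℝ} {g₁ g₂ V : ℝ} (hw : Continuous w) (h₁ : Continuous u₁)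
    (h₂ : Continuous u₂) (a b : ℝ) {C C' : ℝ → ℝ → ℝ}
    (hC : Continuous (fun p : ℝ × ℝ => C p.1 p.2))
    (hC' : Continuous (fun p : ℝ × ℝ => C' p.1 p.2)) :
    BCk w u₁ u₂ g₁ g₂ V (fun v v' => a * C v v' + b * C' v v') =
      a * BCk w u₁ u₂ g₁ g₂ V C + b * BCk w u₁ u₂ g₁ g₂ V C' := by
  unfold BCk
  have hd : Continuous (fun v => w v * C v v) :=
    hw.mul (hC.comp (continuous_id.prodMk continuous_id))
  have hd' : Continuous (fun v => w v * C' v v) :=
    hw.mul (hC'.comp (continuous_id.prodMk continuous_id))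
  have e0 : (∫ v in (0 : ℝ)..V, w v * (a * C v v + b * C' v v)) =
      a * (∫ v in (0 : ℝ)..V, w v * C v v) + b * ∫ v in (0 : ℝ)..V, w v * C' v v := by
    rw [← glin_lin hd hd']
    refine intervalIntegral.integral_congr (fun v _ => ?_)
    show w v * (a * C v v + b * C' v v) = a * (w v * C v v) + b * (w v * C' v v)
    ring
  rw [e0, glin_dbl h₁ hC hC' a b, glin_dbl h₂ hC hC' a b]
  ring

private theorem glin_zero {w u₁ u₂ : ℝ → ℝ} {g₁ g₂ V : ℝ} :
    BCk w u₁ u₂ g₁ g₂ V (fun _ _ => 0) = 0 := by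
  unfold BCk
  simp

private theorem glin_cont_sum {S : Finset ℕ} {c : ℕ → ℝ} {C : ℕ → ℝ → ℝ → ℝ}
    (hC : ∀ i, Continuous (fun p : ℝ × ℝ => C i p.1 p.2)) :
    Continuous (fun p : ℝ × ℝ => ∑ i ∈ S, c i * C i p.1 p.2) :=
  continuous_finsetSum _ (fun i _ => continuous_const.mul (hC i))

private theorem glin_sum {w u₁ u₂ : ℝ → ℝ} {g₁ g₂ V : ℝ} (hw : Continuous w) (h₁ : Continuous u₁)
    (h₂ : Continuous u₂) (S : Finset ℕ) (c : ℕ → ℝ) (C : ℕ → ℝ → ℝ → ℝ)
    (hC : ∀ i, Continuous (fun p : ℝ × ℝ => C i p.1 p.2)) :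
    BCk w u₁ u₂ g₁ g₂ V (fun v v' => ∑ i ∈ S, c i * C i v v') =
      ∑ i ∈ S, c i * BCk w u₁ u₂ g₁ g₂ V (C i) := by
  classical
  induction S using Finset.induction_on with
  | empty => simp only [Finset.sum_empty]; exact glin_zero
  | insert j S hj ih =>
    rw [Finset.sum_insert hj, ← ih]
    have h := glin_two (g₁ := g₁) (g₂ := g₂) (V := V) hw h₁ h₂ (c j) 1 (hC j)
      (C' := fun v v' => ∑ i ∈ S, c i * C i v v') (glin_cont_sum (S := S) (c := c) hC)
    rw [one_mul] at h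
    rw [← h]
    congr 1
    funext v v'
    rw [Finset.sum_insert hj, one_mul]

private theorem glin_bd {u : ℝ → ℝ} {V M : ℝ} (hV : 0 ≤ V) {C : ℝ → ℝ → ℝ} (hu : Continuous u)
    (hC : Continuous (fun p : ℝ × ℝ => C p.1 p.2))
    (hM : ∀ v ∈ Set.Icc 0 V, ∀ v' ∈ Set.Icc 0 V, |C v v'| ≤ M) :
    |∫ v in (0 : ℝ)..V, ∫ v' in (0 : ℝ)..V, u v * u v' * C v v'| ≤
      M * (∫ v in (0 : ℝ)..V, |u v|) ^ 2 := by
  have hua : Continuous (fun v => |u v|) := hu.abs
  have h1 : ∀ v ∈ Set.Icc 0 V, |∫ v' in (0 : ℝ)..V, u v * u v' * C v v'| ≤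
      |u v| * (M * ∫ v' in (0 : ℝ)..V, |u v'|) := by
    intro v hv
    have hc : Continuous (fun v' => u v * u v' * C v v') :=
      (continuous_const.mul hu).mul (hC.comp (continuous_const.prodMk continuous_id))
    refine (intervalIntegral.abs_integral_le_integral_abs hV).trans ?_
    rw [← intervalIntegral.integral_const_mul, ← intervalIntegral.integral_const_mul]
    refine intervalIntegral.integral_mono_on hV (hc.abs.intervalIntegrable _ _)
      ((continuous_const.mul (continuous_const.mul hua)).intervalIntegrable _ _) ?_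
    intro v' hv'
    rw [abs_mul, abs_mul]
    have := hM v hv v' hv'
    have h2 : 0 ≤ |u v| * |u v'| := by positivity
    nlinarith [mul_le_mul_of_nonneg_left this h2]
  refine (intervalIntegral.abs_integral_le_integral_abs hV).trans ?_
  have h3 : M * (∫ v in (0 : ℝ)..V, |u v|) ^ 2 =
      ∫ v in (0 : ℝ)..V, |u v| * (M * ∫ v' in (0 : ℝ)..V, |u v'|) := by
    rw [intervalIntegral.integral_mul_const]
    ring
  rw [h3]
  exact intervalIntegral.integral_mono_on hV ((glin_inner hu hC).abs.intervalIntegrable _ _)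
    ((hua.mul continuous_const).intervalIntegrable _ _) h1

private theorem glin_bdw {w : ℝ → ℝ} {V M : ℝ} (hV : 0 ≤ V) {C : ℝ → ℝ → ℝ} (hw : Continuous w)
    (hw0 : ∀ v, 0 < w v) (hC : Continuous (fun p : ℝ × ℝ => C p.1 p.2))
    (hM : ∀ v ∈ Set.Icc 0 V, ∀ v' ∈ Set.Icc 0 V, |C v v'| ≤ M) :
    |∫ v in (0 : ℝ)..V, w v * C v v| ≤ M * ∫ v in (0 : ℝ)..V, w v := by
  have hd : Continuous (fun v => w v * C v v) :=
    hw.mul (hC.comp (continuous_id.prodMk continuous_id))
  refine (intervalIntegral.abs_integral_le_integral_abs hV).trans ?_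
  rw [← intervalIntegral.integral_const_mul]
  refine intervalIntegral.integral_mono_on hV (hd.abs.intervalIntegrable _ _)
    ((continuous_const.mul hw).intervalIntegrable _ _) ?_
  intro v hv
  rw [abs_mul, abs_of_pos (hw0 v)]
  nlinarith [hM v hv v hv, hw0 v]

theorem p_G_lin : G_lin := by
  intro w u₁ u₂ g₁ g₂ V hw h₁ h₂ hV
  refine ⟨fun a b C C' hC hC' => glin_two hw h₁ h₂ a b hC hC',
    fun n c C hC => glin_sum hw h₁ h₂ (range n) c C hC,
    fun S c C hC => glin_sum hw h₁ h₂ S c C hC, fun hw0 hg₁ hg₂ => ⟨?_, ?_⟩⟩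
  · unfold WW
    have h0 : 0 ≤ ∫ v in (0 : ℝ)..V, w v :=
      intervalIntegral.integral_nonneg hV (fun v _ => (hw0 v).le)
    positivity
  · intro M C hC hM
    unfold BCk WW
    have b0 := glin_bdw hV hw hw0 hC hM
    have b1 := glin_bd hV h₁ hC hM
    have b2 := glin_bd hV h₂ hC hM
    have t1 : |g₁ * (∫ v in (0 : ℝ)..V, ∫ v' in (0 : ℝ)..V, u₁ v * u₁ v' * C v v')| ≤
        g₁ * (M * (∫ v in (0 : ℝ)..V, |u₁ v|) ^ 2) := by
      rw [abs_mul, abs_of_nonneg hg₁]
      exact mul_le_mul_of_nonneg_left b1 hg₁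
    have t2 : |g₂ * (∫ v in (0 : ℝ)..V, ∫ v' in (0 : ℝ)..V, u₂ v * u₂ v' * C v v')| ≤
        g₂ * (M * (∫ v in (0 : ℝ)..V, |u₂ v|) ^ 2) := by
      rw [abs_mul, abs_of_nonneg hg₂]
      exact mul_le_mul_of_nonneg_left b2 hg₂
    refine (abs_add_le _ _).trans ?_
    refine (add_le_add ((abs_add_le _ _).trans (add_le_add b0 t1)) t2).trans (le_of_eq ?_)
    ring

end Pool.Agent.MP0016c7.PC
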