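import Mathlib
import Pool.Agent.Lib.MP_0016c7_nt.PC.GStm

set_option autoImplicit false

/-!
Project PrimeConductors, block [G], piece `G_mean`: the mean of the kernels.
-/

open Finset MeasureTheory Filter Topology
open scoped Real ContDiff

namespace Pool.Agent.MP0016c7.PC

open Pool.Agent.MP0016c7.Rz

private lemma gm_swap1 (S : Finset ℕ) (cf : ℕ → ℝ) (n : ℕ) (f : ℕ → ℕ → ℝ) :
    ∑ k ∈ range n, ∑ d ∈ S, cf d * f k d = ∑ d ∈ S, cf d * ∑ k ∈ range n, f k d := by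
  rw [Finset.sum_comm]
  refine Finset.sum_congr rfl fun d _ => ?_
  rw [Finset.mul_sum]

private lemma gm_swap2 (S : Finset ℕ) (cf : ℕ → ℝ) (n : ℕ) (f g : ℕ → ℕ → ℝ) :
    ∑ i ∈ range n, ∑ j ∈ range n, ∑ d ∈ S, cf d * (f i d * g j d) =
      ∑ d ∈ S, cf d * ((∑ i ∈ range n, f i d) * ∑ j ∈ range n, g j d) := by
  have h1 : ∀ i ∈ range n, ∑ j ∈ range n, ∑ d ∈ S, cf d * (f i d * g j d) =
      ∑ d ∈ S, ∑ j ∈ range n, cf d * (f i d * g j d) := fun i _ => Finset.sum_comm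
  rw [Finset.sum_congr rfl h1, Finset.sum_comm]
  refine Finset.sum_congr rfl fun d _ => ?_
  rw [Finset.sum_mul_sum, Finset.mul_sum]
  refine Finset.sum_congr rfl fun i _ => ?_
  rw [Finset.mul_sum]

private lemma gm_key (S : Finset ℕ) (cf : ℕ → ℝ) (y y' r : ℝ) (sa sb sa' sb' sc' : ℕ → ℝ) :
    ∑ d ∈ S, cf d * ((y - sa d) * (y' - sa' d) - 2 * ((y - sa d) * (sc' d - sa' d)) +
      r * ((sb d - sa d) * (sb' d - sa' d))) =
    y * y' * ∑ d ∈ S, cf d - y * ∑ d ∈ S, cf d * sa' d - y' * ∑ d ∈ S, cf d * sa d -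
      2 * y * (∑ d ∈ S, cf d * sc' d - ∑ d ∈ S, cf d * sa' d) +
      (∑ d ∈ S, cf d * (sa d * sa' d) +
        2 * (∑ d ∈ S, cf d * (sa d * sc' d) - ∑ d ∈ S, cf d * (sa d * sa' d)) +
        r * (∑ d ∈ S, cf d * (sb d * sb' d) - ∑ d ∈ S, cf d * (sb d * sa' d) -
          ∑ d ∈ S, cf d * (sa d * sb' d) + ∑ d ∈ S, cf d * (sa d * sa' d))) := by
  simp only [Finset.mul_sum, ← Finset.sum_add_distrib, ← Finset.sum_sub_distrib]
  refine Finset.sum_congr rfl fun d _ => ?_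
  ring

private lemma gm_sum_bd (n : ℕ) (f g : ℕ → ℝ) (ε : ℝ) (h : ∀ k < n, |f k - g k| ≤ ε) :
    |∑ k ∈ range n, f k - ∑ k ∈ range n, g k| ≤ n * ε := by
  rw [← Finset.sum_sub_distrib]
  refine (Finset.abs_sum_le_sum_abs _ _).trans ?_
  have := Finset.sum_le_card_nsmul (range n) (fun k => |f k - g k|) ε
    (fun k hk => h k (Finset.mem_range.1 hk))
  simpa using this

private lemma gm_cv3 (lam ε ε' w x z : ℝ) {M : ℝ} (h0 : 0 ≤ lam) (h1 : lam ≤ 1) (hw : |w| ≤ ε')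
    (hx : |x| ≤ ε) (hz : |z| ≤ ε) (hM : ε' + ε = M) : |w - (1 - lam) * x - lam * z| ≤ M := by
  have hl : 0 ≤ 1 - lam := by linarith
  rw [abs_le] at hw hx hz ⊢
  have a1 := mul_le_mul_of_nonneg_left hx.1 hl
  have a2 := mul_le_mul_of_nonneg_left hx.2 hl
  have a3 := mul_le_mul_of_nonneg_left hz.1 h0
  have a4 := mul_le_mul_of_nonneg_left hz.2 h0
  have a5 := hw.1
  have a6 := hw.2
  constructor
  · linarith
  · linarith

/-- one pair -/
private lemma gm_pair (r t lam κ' I ε K₁ p s : ℝ) (hr : 0 ≤ r) (hrK : r ≤ K₁) (ht : 1 ≤ t)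
    (htK : t ≤ K₁) (h0 : 0 ≤ lam) (h1 : lam ≤ 1) (hε : 0 ≤ ε)
    (Eaa Eac Ebb Eba Eab : ℝ) (gaa gac gab gba gbb gbc gca gcb gcc : ℝ)
    (Faa Fab Fac Fba Fbb Fbc Fca Fcb Fcc : ℝ)
    (h_aa : |Eaa - I * (p + s * gaa)| ≤ ε) (h_ac : |Eac - I * (p + s * gac)| ≤ ε)
    (h_bb : |Ebb - I * (p + s * gbb)| ≤ ε) (h_ba : |Eba - I * (p + s * gba)| ≤ ε)
    (h_ab : |Eab - I * (p + s * gab)| ≤ ε)
    (k_aa : |Faa - κ' * I * (p + s * gaa)| ≤ ε) (k_ab : |Fab - κ' * I * (p + s * gab)| ≤ ε)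
    (k_ac : |Fac - κ' * I * (p + s * gac)| ≤ ε) (k_ba : |Fba - κ' * I * (p + s * gba)| ≤ ε)
    (k_bb : |Fbb - κ' * I * (p + s * gbb)| ≤ ε) (k_bc : |Fbc - κ' * I * (p + s * gbc)| ≤ ε)
    (k_ca : |Fca - κ' * I * (p + s * gca)| ≤ ε) (k_cb : |Fcb - κ' * I * (p + s * gcb)| ≤ ε)
    (k_cc : |Fcc - κ' * I * (p + s * gcc)| ≤ ε) :
    |(Eaa + 2 * (Eac - Eaa) + r * (Ebb - Eba - Eab + Eaa)) +
      t * ((Fcc + (lam - 1) * Fcb + (-lam) * Fca) + (lam - 1) * (Fbc + (lam - 1) * Fbb +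
        (-lam) * Fba) + (-lam) * (Fac + (lam - 1) * Fab + (-lam) * Faa)) -
      I * (p + s * (gaa + 2 * (gac - gaa) + r * (gbb - gba - gab + gaa) +
        t * κ' * ((gcc + (lam - 1) * gcb + (-lam) * gca) + (lam - 1) * (gbc + (lam - 1) * gbb +
        (-lam) * gba) + (-lam) * (gac + (lam - 1) * gab + (-lam) * gaa))))| ≤
      (5 + 8 * K₁) * ε := by
  -- names for the errors
  set eaa := Eaa - I * (p + s * gaa) with heaa
  set eac := Eac - I * (p + s * gac) with heac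
  set ebb := Ebb - I * (p + s * gbb) with hebb
  set eba := Eba - I * (p + s * gba) with heba
  set eab := Eab - I * (p + s * gab) with heab
  set faa := Faa - κ' * I * (p + s * gaa) with hfaa
  set fab := Fab - κ' * I * (p + s * gab) with hfab
  set fac := Fac - κ' * I * (p + s * gac) with hfac
  set fba := Fba - κ' * I * (p + s * gba) with hfba
  set fbb := Fbb - κ' * I * (p + s * gbb) with hfbb
  set fbc := Fbc - κ' * I * (p + s * gbc) with hfbc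
  set fca := Fca - κ' * I * (p + s * gca) with hfca
  set fcb := Fcb - κ' * I * (p + s * gcb) with hfcb
  set fcc := Fcc - κ' * I * (p + s * gcc) with hfcc
  have hid : (Eaa + 2 * (Eac - Eaa) + r * (Ebb - Eba - Eab + Eaa)) +
      t * ((Fcc + (lam - 1) * Fcb + (-lam) * Fca) + (lam - 1) * (Fbc + (lam - 1) * Fbb +
        (-lam) * Fba) + (-lam) * (Fac + (lam - 1) * Fab + (-lam) * Faa)) -
      I * (p + s * (gaa + 2 * (gac - gaa) + r * (gbb - gba - gab + gaa) +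
        t * κ' * ((gcc + (lam - 1) * gcb + (-lam) * gca) + (lam - 1) * (gbc + (lam - 1) * gbb +
        (-lam) * gba) + (-lam) * (gac + (lam - 1) * gab + (-lam) * gaa)))) =
      (-eaa + 2 * eac) + r * (ebb - eba - eab + eaa) +
      t * ((fcc - (1 - lam) * fcb - lam * fca) - (1 - lam) * (fbc - (1 - lam) * fbb -
        lam * fba) - lam * (fac - (1 - lam) * fab - lam * faa)) := by
    rw [heaa, heac, hebb, heba, heab, hfaa, hfab, hfac, hfba, hfbb, hfbc, hfca, hfcb, hfcc]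
    ring
  rw [hid]
  have h1c : |fcc - (1 - lam) * fcb - lam * fca| ≤ 2 * ε := gm_cv3 lam ε ε fcc fcb fca h0 h1 k_cc k_cb k_ca (by ring)
  have h1b : |fbc - (1 - lam) * fbb - lam * fba| ≤ 2 * ε := gm_cv3 lam ε ε fbc fbb fba h0 h1 k_bc k_bb k_ba (by ring)
  have h1a : |fac - (1 - lam) * fab - lam * faa| ≤ 2 * ε := gm_cv3 lam ε ε fac fab faa h0 h1 k_ac k_ab k_aa (by ring)
  have hX : |(fcc - (1 - lam) * fcb - lam * fca) - (1 - lam) * (fbc - (1 - lam) * fbb -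
        lam * fba) - lam * (fac - (1 - lam) * fab - lam * faa)| ≤ 4 * ε :=
    gm_cv3 lam (2 * ε) (2 * ε) _ _ _ h0 h1 h1c h1b h1a (by ring)
  have hY : |ebb - eba - eab + eaa| ≤ 4 * ε := by
    rw [abs_le] at h_bb h_ba h_ab h_aa ⊢
    constructor <;> linarith
  have hZ : |-eaa + 2 * eac| ≤ 5 * ε := by
    rw [abs_le] at h_aa h_ac ⊢
    constructor <;> linarith
  have hK : 0 ≤ K₁ := by linarith
  have hrY : |r * (ebb - eba - eab + eaa)| ≤ K₁ * (4 * ε) := by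
    rw [abs_mul, abs_of_nonneg hr]
    exact mul_le_mul hrK hY (abs_nonneg _) hK
  have htX : |t * ((fcc - (1 - lam) * fcb - lam * fca) - (1 - lam) * (fbc - (1 - lam) * fbb -
        lam * fba) - lam * (fac - (1 - lam) * fab - lam * faa))| ≤ K₁ * (4 * ε) := by
    rw [abs_mul, abs_of_nonneg (by linarith : 0 ≤ t)]
    exact mul_le_mul htK hX (abs_nonneg _) hK
  calc _ ≤ |(-eaa + 2 * eac) + r * (ebb - eba - eab + eaa)| +
        |t * ((fcc - (1 - lam) * fcb - lam * fca) - (1 - lam) * (fbc - (1 - lam) * fbb -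
        lam * fba) - lam * (fac - (1 - lam) * fab - lam * faa))| := abs_add_le _ _
    _ ≤ (|-eaa + 2 * eac| + |r * (ebb - eba - eab + eaa)|) +
        |t * ((fcc - (1 - lam) * fcb - lam * fca) - (1 - lam) * (fbc - (1 - lam) * fbb -
        lam * fba) - lam * (fac - (1 - lam) * fab - lam * faa))| := by
        gcongr; exact abs_add_le _ _
    _ ≤ (5 * ε + K₁ * (4 * ε)) + K₁ * (4 * ε) := by gcongr
    _ = (5 + 8 * K₁) * ε := by ring

private lemma gm_fin (y y' Yb n ε I m E1 EA' EA EC' P Q C : ℝ) (hn : 0 ≤ n)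
    (hε : 0 ≤ ε) (hy : |y| ≤ Yb) (hy' : |y'| ≤ Yb)
    (h1 : |E1 - I| ≤ ε) (hA' : |EA' - I * m| ≤ n * ε) (hA : |EA - I * m| ≤ n * ε)
    (hC' : |EC' - I * m| ≤ n * ε) (hP : |P - I * (m * m + Q)| ≤ C) :
    |y * y' * E1 - y * EA' - y' * EA - 2 * y * (EC' - EA') + P -
      I * ((y - m) * (y' - m) + Q)| ≤ (Yb ^ 2 + 6 * Yb * n) * ε + C := by
  have hid : y * y' * E1 - y * EA' - y' * EA - 2 * y * (EC' - EA') + P -
      I * ((y - m) * (y' - m) + Q) =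
      y * y' * (E1 - I) - y * (EA' - I * m) - y' * (EA - I * m) -
        2 * y * ((EC' - I * m) - (EA' - I * m)) + (P - I * (m * m + Q)) := by ring
  rw [hid]
  have hYb : 0 ≤ Yb := (abs_nonneg y).trans hy
  have hne : 0 ≤ n * ε := mul_nonneg hn hε
  have b1 : |y * y' * (E1 - I)| ≤ Yb * Yb * ε := by
    rw [abs_mul, abs_mul]
    exact mul_le_mul (mul_le_mul hy hy' (abs_nonneg _) hYb) h1 (abs_nonneg _)
      (mul_nonneg hYb hYb)
  have b2 : |y * (EA' - I * m)| ≤ Yb * (n * ε) := by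
    rw [abs_mul]; exact mul_le_mul hy hA' (abs_nonneg _) hYb
  have b3 : |y' * (EA - I * m)| ≤ Yb * (n * ε) := by
    rw [abs_mul]; exact mul_le_mul hy' hA (abs_nonneg _) hYb
  have b4 : |2 * y * ((EC' - I * m) - (EA' - I * m))| ≤ 2 * Yb * (n * ε + n * ε) := by
    rw [abs_mul, abs_mul, abs_two]
    refine mul_le_mul (by linarith) ?_ (abs_nonneg _) (by linarith)
    refine (abs_sub _ _).trans ?_
    linarith
  rw [abs_le] at b1 b2 b3 b4 hP ⊢
  constructor <;> nlinarith [b1.1, b1.2, b2.1, b2.2, b3.1, b3.2, b4.1, b4.2, hP.1, hP.2]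

theorem p_G_mean : G_mean := by
  intro J δ K₁ Yb hδ hδ' τ σ hστ mm
  refine ⟨(Yb ^ 2 + 6 * |Yb| * J) + (J : ℝ) * (J * (5 + 8 * |K₁|)), by positivity, ?_⟩
  intro y t lam r hy ht htK hl0 hl1 hr hrK Sm Γ hSm hΓ I κ' ε₁ hI hκ' S cf cf' T hMS v hv v' hv'
  have hε : 0 ≤ ε₁ := (abs_nonneg _).trans hMS.m0
  have hK : 0 ≤ K₁ := by linarith
  have hyv := hy v hv
  have hyv' := hy v' hv'
  have hYb : 0 ≤ Yb := (abs_nonneg _).trans hyv
  rw [abs_of_nonneg hYb, abs_of_nonneg hK]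
  set Y := 1 / 2 - v with hY
  set Y' := 1 / 2 - v' with hY'
  have hYm : Y ∈ Set.Icc (-δ) (1 / 2 : ℝ) := by
    constructor
    · have := hv.2; linarith
    · have := hv.1; linarith
  have hYm' : Y' ∈ Set.Icc (-δ) (1 / 2 : ℝ) := by
    constructor
    · have := hv'.2; linarith
    · have := hv'.1; linarith
  have hms : ∀ k < J, min Y (σ k) ∈ Set.Icc (-δ) (σ k) := fun k hk =>
    ⟨le_min hYm.1 (hστ k hk).1, min_le_right _ _⟩
  have hms' : ∀ k < J, min Y' (σ k) ∈ Set.Icc (-δ) (σ k) := fun k hk =>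
    ⟨le_min hYm'.1 (hστ k hk).1, min_le_right _ _⟩
  have hmt : ∀ k < J, min Y (τ k) ∈ Set.Icc (-δ) (τ k) := fun k hk =>
    ⟨le_min hYm.1 (by have := (hστ k hk).2.2.1; linarith), min_le_right _ _⟩
  have hmt' : ∀ k < J, min Y' (τ k) ∈ Set.Icc (-δ) (τ k) := fun k hk =>
    ⟨le_min hYm'.1 (by have := (hστ k hk).2.2.1; linarith), min_le_right _ _⟩
  have hst : ∀ k < J, ∀ x ∈ Set.Icc (-δ) (σ k), x ∈ Set.Icc (-δ) (τ k) := fun k hk x hx =>
    ⟨hx.1, hx.2.trans (hστ k hk).2.1⟩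
  have hth : ∀ k < J, ∀ x ∈ Set.Icc (-δ) (τ k), x ∈ Set.Icc (-δ) (1 / 2 : ℝ) := fun k hk x hx =>
    ⟨hx.1, hx.2.trans (hστ k hk).2.2.2⟩
  have hsh : ∀ k < J, ∀ x ∈ Set.Icc (-δ) (σ k), x ∈ Set.Icc (-δ) (1 / 2 : ℝ) := fun k hk x hx =>
    hth k hk x (hst k hk x hx)
  -- the families
  set a : ℕ → ℕ → ℝ := fun k d => T k d (min Y (σ k)) with ha
  set b : ℕ → ℕ → ℝ := fun k d => T k d (min Y (τ k)) with hb
  set c : ℕ → ℕ → ℝ := fun k d => T k d Y with hc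
  set a' : ℕ → ℕ → ℝ := fun k d => T k d (min Y' (σ k)) with ha'
  set b' : ℕ → ℕ → ℝ := fun k d => T k d (min Y' (τ k)) with hb'
  set c' : ℕ → ℕ → ℝ := fun k d => T k d Y' with hc'
  -- the cf part
  have hL1 : (∑ d ∈ S, cf d * ((y v - ∑ k ∈ range J, T k d (min Y (σ k))) *
        (y v' - ∑ k ∈ range J, T k d (min Y' (σ k))) -
      2 * ((y v - ∑ k ∈ range J, T k d (min Y (σ k))) *
        ∑ k ∈ range J, (T k d Y' - T k d (min Y' (σ k)))) +
      r * ((∑ k ∈ range J, (T k d (min Y (τ k)) - T k d (min Y (σ k)))) *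
        ∑ k ∈ range J, (T k d (min Y' (τ k)) - T k d (min Y' (σ k)))))) =
      y v * y v' * ∑ d ∈ S, cf d - y v * ∑ k ∈ range J, ∑ d ∈ S, cf d * a' k d -
        y v' * ∑ k ∈ range J, ∑ d ∈ S, cf d * a k d -
        2 * y v * (∑ k ∈ range J, ∑ d ∈ S, cf d * c' k d -
          ∑ k ∈ range J, ∑ d ∈ S, cf d * a' k d) +
        ∑ i ∈ range J, ∑ j ∈ range J, (∑ d ∈ S, cf d * (a i d * a' j d) +
          2 * (∑ d ∈ S, cf d * (a i d * c' j d) - ∑ d ∈ S, cf d * (a i d * a' j d)) +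
          r * (∑ d ∈ S, cf d * (b i d * b' j d) - ∑ d ∈ S, cf d * (b i d * a' j d) -
          ∑ d ∈ S, cf d * (a i d * b' j d) + ∑ d ∈ S, cf d * (a i d * a' j d))) := by
    have h := gm_key S cf (y v) (y v') r (fun d => ∑ k ∈ range J, a k d)
      (fun d => ∑ k ∈ range J, b k d) (fun d => ∑ k ∈ range J, a' k d)
      (fun d => ∑ k ∈ range J, b' k d) (fun d => ∑ k ∈ range J, c' k d)
    simp only [Finset.sum_add_distrib, ← Finset.mul_sum, Finset.sum_sub_distrib, gm_swap2]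
    simp only [gm_swap1]
    exact h
  -- the cf' part
  have hL2 : (∑ d ∈ S, cf' d * ((∑ k ∈ range J, cmb 1 (lam - 1) (-lam) (τ k) (σ k) (T k d)
        Y) * ∑ k ∈ range J, cmb 1 (lam - 1) (-lam) (τ k) (σ k) (T k d) Y')) =
      ∑ i ∈ range J, ∑ j ∈ range J, ((∑ d ∈ S, cf' d * (c i d * c' j d) +
        (lam - 1) * ∑ d ∈ S, cf' d * (c i d * b' j d) +
        (-lam) * ∑ d ∈ S, cf' d * (c i d * a' j d)) +
        (lam - 1) * (∑ d ∈ S, cf' d * (b i d * c' j d) +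
        (lam - 1) * ∑ d ∈ S, cf' d * (b i d * b' j d) +
        (-lam) * ∑ d ∈ S, cf' d * (b i d * a' j d)) +
        (-lam) * (∑ d ∈ S, cf' d * (a i d * c' j d) +
        (lam - 1) * ∑ d ∈ S, cf' d * (a i d * b' j d) +
        (-lam) * ∑ d ∈ S, cf' d * (a i d * a' j d))) := by
    rw [← gm_swap2 S cf' J (fun k d => cmb 1 (lam - 1) (-lam) (τ k) (σ k) (T k d) Y)
      (fun k d => cmb 1 (lam - 1) (-lam) (τ k) (σ k) (T k d) Y')]
    refine Finset.sum_congr rfl fun i _ => Finset.sum_congr rfl fun j _ => ?_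
    simp only [Finset.mul_sum, ← Finset.sum_add_distrib]
    refine Finset.sum_congr rfl fun d _ => ?_
    simp only [cmb, ha, hb, hc, ha', hb', hc']
    ring
  rw [hL1, hL2]
  -- bounds for linear parts
  have hA : |∑ k ∈ range J, ∑ d ∈ S, cf d * a k d - I * ∑ k ∈ range J, mm k| ≤ J * ε₁ := by
    rw [Finset.mul_sum]
    exact gm_sum_bd J _ _ ε₁ fun k hk => hMS.m1 k hk _ (hsh k hk _ (hms k hk))
  have hA' : |∑ k ∈ range J, ∑ d ∈ S, cf d * a' k d - I * ∑ k ∈ range J, mm k| ≤ J * ε₁ := by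
    rw [Finset.mul_sum]
    exact gm_sum_bd J _ _ ε₁ fun k hk => hMS.m1 k hk _ (hsh k hk _ (hms' k hk))
  have hC' : |∑ k ∈ range J, ∑ d ∈ S, cf d * c' k d - I * ∑ k ∈ range J, mm k| ≤ J * ε₁ := by
    rw [Finset.mul_sum]
    exact gm_sum_bd J _ _ ε₁ fun k hk => hMS.m1 k hk _ hYm'
  -- the pairs
  have hpair : ∀ i < J, ∀ j < J, |((∑ d ∈ S, cf d * (a i d * a' j d) +
          2 * (∑ d ∈ S, cf d * (a i d * c' j d) - ∑ d ∈ S, cf d * (a i d * a' j d)) +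
          r * (∑ d ∈ S, cf d * (b i d * b' j d) - ∑ d ∈ S, cf d * (b i d * a' j d) -
          ∑ d ∈ S, cf d * (a i d * b' j d) + ∑ d ∈ S, cf d * (a i d * a' j d))) +
        t * ((∑ d ∈ S, cf' d * (c i d * c' j d) +
        (lam - 1) * ∑ d ∈ S, cf' d * (c i d * b' j d) +
        (-lam) * ∑ d ∈ S, cf' d * (c i d * a' j d)) +
        (lam - 1) * (∑ d ∈ S, cf' d * (b i d * c' j d) +
        (lam - 1) * ∑ d ∈ S, cf' d * (b i d * b' j d) +
        (-lam) * ∑ d ∈ S, cf' d * (b i d * a' j d)) +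
        (-lam) * (∑ d ∈ S, cf' d * (a i d * c' j d) +
        (lam - 1) * ∑ d ∈ S, cf' d * (a i d * b' j d) +
        (-lam) * ∑ d ∈ S, cf' d * (a i d * a' j d)))) -
        I * (mm i * mm j + Sm i j * XX Γ r t lam κ' (τ i) (σ i) (τ j) (σ j) Y Y')| ≤
        (5 + 8 * K₁) * ε₁ := by
    intro i hi j hj
    have h := gm_pair r t lam κ' I ε₁ K₁ (mm i * mm j) (Sm i j) hr hrK ht htK hl0 hl1 hε
      _ _ _ _ _ _ _ _ _ _ _ _ _ _ _ _ _ _ _ _ _ _ _
      (hMS.mt i hi j hj _ (hst i hi _ (hms i hi)) _ (hst j hj _ (hms' j hj)))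
      (hMS.ms i hi j hj _ (hms i hi) _ hYm').1
      (hMS.mt i hi j hj _ (hmt i hi) _ (hmt' j hj))
      (hMS.mt i hi j hj _ (hmt i hi) _ (hst j hj _ (hms' j hj)))
      (hMS.mt i hi j hj _ (hst i hi _ (hms i hi)) _ (hmt' j hj))
      (hMS.m2' i hi j hj _ (hsh i hi _ (hms i hi)) _ (hsh j hj _ (hms' j hj)))
      (hMS.m2' i hi j hj _ (hsh i hi _ (hms i hi)) _ (hth j hj _ (hmt' j hj)))
      (hMS.m2' i hi j hj _ (hsh i hi _ (hms i hi)) _ hYm')
      (hMS.m2' i hi j hj _ (hth i hi _ (hmt i hi)) _ (hsh j hj _ (hms' j hj)))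
      (hMS.m2' i hi j hj _ (hth i hi _ (hmt i hi)) _ (hth j hj _ (hmt' j hj)))
      (hMS.m2' i hi j hj _ (hth i hi _ (hmt i hi)) _ hYm')
      (hMS.m2' i hi j hj _ hYm _ (hsh j hj _ (hms' j hj)))
      (hMS.m2' i hi j hj _ hYm _ (hth j hj _ (hmt' j hj)))
      (hMS.m2' i hi j hj _ hYm _ hYm')
    have hXX : XX Γ r t lam κ' (τ i) (σ i) (τ j) (σ j) Y Y' =
        (Γ (min Y (σ i)) (min Y' (σ j)) + 2 * (Γ (min Y (σ i)) Y' -
          Γ (min Y (σ i)) (min Y' (σ j))) +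
          r * (Γ (min Y (τ i)) (min Y' (τ j)) - Γ (min Y (τ i)) (min Y' (σ j)) -
            Γ (min Y (σ i)) (min Y' (τ j)) + Γ (min Y (σ i)) (min Y' (σ j))) +
        t * κ' * ((Γ Y Y' + (lam - 1) * Γ Y (min Y' (τ j)) + (-lam) * Γ Y (min Y' (σ j))) +
          (lam - 1) * (Γ (min Y (τ i)) Y' + (lam - 1) * Γ (min Y (τ i)) (min Y' (τ j)) +
            (-lam) * Γ (min Y (τ i)) (min Y' (σ j))) +
          (-lam) * (Γ (min Y (σ i)) Y' + (lam - 1) * Γ (min Y (σ i)) (min Y' (τ j)) +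
            (-lam) * Γ (min Y (σ i)) (min Y' (σ j))))) := by
      simp only [XX, GG, cmb]
      ring
    rw [hXX]
    exact h
  have hP : |(∑ i ∈ range J, ∑ j ∈ range J, (∑ d ∈ S, cf d * (a i d * a' j d) +
          2 * (∑ d ∈ S, cf d * (a i d * c' j d) - ∑ d ∈ S, cf d * (a i d * a' j d)) +
          r * (∑ d ∈ S, cf d * (b i d * b' j d) - ∑ d ∈ S, cf d * (b i d * a' j d) -
          ∑ d ∈ S, cf d * (a i d * b' j d) + ∑ d ∈ S, cf d * (a i d * a' j d))) +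
        t * ∑ i ∈ range J, ∑ j ∈ range J, ((∑ d ∈ S, cf' d * (c i d * c' j d) +
        (lam - 1) * ∑ d ∈ S, cf' d * (c i d * b' j d) +
        (-lam) * ∑ d ∈ S, cf' d * (c i d * a' j d)) +
        (lam - 1) * (∑ d ∈ S, cf' d * (b i d * c' j d) +
        (lam - 1) * ∑ d ∈ S, cf' d * (b i d * b' j d) +
        (-lam) * ∑ d ∈ S, cf' d * (b i d * a' j d)) +
        (-lam) * (∑ d ∈ S, cf' d * (a i d * c' j d) +
        (lam - 1) * ∑ d ∈ S, cf' d * (a i d * b' j d) +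
        (-lam) * ∑ d ∈ S, cf' d * (a i d * a' j d)))) -
        I * ((∑ k ∈ range J, mm k) * (∑ k ∈ range J, mm k) +
          ∑ i ∈ range J, ∑ j ∈ range J, Sm i j *
            XX Γ r t lam κ' (τ i) (σ i) (τ j) (σ j) Y Y')| ≤
        J * (J * ((5 + 8 * K₁) * ε₁)) := by
    have e1 : I * ((∑ k ∈ range J, mm k) * (∑ k ∈ range J, mm k) +
          ∑ i ∈ range J, ∑ j ∈ range J, Sm i j *
            XX Γ r t lam κ' (τ i) (σ i) (τ j) (σ j) Y Y') =
        ∑ i ∈ range J, ∑ j ∈ range J, I * (mm i * mm j + Sm i j *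
          XX Γ r t lam κ' (τ i) (σ i) (τ j) (σ j) Y Y') := by
      rw [Finset.sum_mul_sum, ← Finset.sum_add_distrib, Finset.mul_sum]
      refine Finset.sum_congr rfl fun i _ => ?_
      rw [← Finset.sum_add_distrib, Finset.mul_sum]
    rw [e1, Finset.mul_sum, ← Finset.sum_add_distrib]
    refine gm_sum_bd J _ _ _ fun i hi => ?_
    rw [Finset.mul_sum, ← Finset.sum_add_distrib]
    exact gm_sum_bd J _ _ _ fun j hj => hpair i hi j hj
  have hfin := gm_fin (y v) (y v') Yb J ε₁ I (∑ k ∈ range J, mm k) (∑ d ∈ S, cf d)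
    _ _ _ _ _ _ (Nat.cast_nonneg J) hε hyv hyv' hMS.m0 hA' hA hC' hP
  refine le_of_eq_of_le ?_ (hfin.trans (le_of_eq ?_))
  · congr 1
    ring
  · ring

end Pool.Agent.MP0016c7.PC
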