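import Mathlib
import Pool.Agent.Lib.MP_0016c7_nt.PC.GStm

set_option autoImplicit false

open Finset MeasureTheory Filter Topology
open scoped Real ContDiff

namespace Pool.Agent.MP0016c7.PC

open Pool.Agent.MP0016c7.Rz

private lemma g_prod_aux (u f e : ℝ → ℝ) (V : ℝ) :
    (∫ v in (0 : ℝ)..V, ∫ v' in (0 : ℝ)..V, u v * u v' * (f v * e v')) =
      (∫ v in (0 : ℝ)..V, u v * f v) * ∫ v in (0 : ℝ)..V, u v * e v := by
  have h : ∀ v, (∫ v' in (0 : ℝ)..V, u v * u v' * (f v * e v')) =
      (u v * f v) * ∫ v' in (0 : ℝ)..V, u v' * e v' := by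
    intro v
    rw [← intervalIntegral.integral_const_mul]
    congr 1
    funext v'
    ring
  simp only [h]
  rw [intervalIntegral.integral_mul_const]

theorem p_G_prod : G_prod := by
  intro w u₁ u₂ g₁ g₂ V f e
  constructor
  · unfold BCk
    rw [g_prod_aux, g_prod_aux]
  · unfold BCk qP
    rw [g_prod_aux, g_prod_aux]
    have h : (∫ v in (0 : ℝ)..V, w v * (f v * f v)) = ∫ v in (0 : ℝ)..V, w v * f v ^ 2 := by
      congr 1
      funext v
      ring
    rw [h]
    ring

end Pool.Agent.MP0016c7.PC
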