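import Mathlib
import Pool.Agent.Lib.MP_0016c7_nt.PC.GStm

set_option autoImplicit false

open Finset MeasureTheory Filter Topology
open scoped Real ContDiff

namespace Pool.Agent.MP0016c7.PC

open Pool.Agent.MP0016c7.Rz

/-- The bilinear form. -/
private noncomputable def gsB (w u₁ u₂ : ℝ → ℝ) (g₁ g₂ V : ℝ) (f e : ℝ → ℝ) : ℝ :=
  (∫ v in (0 : ℝ)..V, w v * (f v * e v)) +
    g₁ * ((∫ v in (0 : ℝ)..V, u₁ v * f v) * ∫ v in (0 : ℝ)..V, u₁ v * e v) +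
    g₂ * ((∫ v in (0 : ℝ)..V, u₂ v * f v) * ∫ v in (0 : ℝ)..V, u₂ v * e v)

private theorem gs_lin {f g : ℝ → ℝ} (hf : Continuous f) (hg : Continuous g) (a b V : ℝ) :
    (∫ v in (0 : ℝ)..V, (a * f v + b * g v)) =
      a * (∫ v in (0 : ℝ)..V, f v) + b * ∫ v in (0 : ℝ)..V, g v := by
  have h1 : IntervalIntegrable (fun v => a * f v) volume 0 V :=
    (continuous_const.mul hf).intervalIntegrable _ _
  have h2 : IntervalIntegrable (fun v => b * g v) volume 0 V :=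
    (continuous_const.mul hg).intervalIntegrable _ _
  rw [intervalIntegral.integral_add h1 h2,
    intervalIntegral.integral_const_mul, intervalIntegral.integral_const_mul]

private theorem gs_add {w u₁ u₂ : ℝ → ℝ} {g₁ g₂ V : ℝ} (hw : Continuous w) (h₁ : Continuous u₁)
    (h₂ : Continuous u₂) {f f' e : ℝ → ℝ} (hf : Continuous f) (hf' : Continuous f')
    (he : Continuous e) (a b : ℝ) :
    gsB w u₁ u₂ g₁ g₂ V (fun v => a * f v + b * f' v) e =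
      a * gsB w u₁ u₂ g₁ g₂ V f e + b * gsB w u₁ u₂ g₁ g₂ V f' e := by
  unfold gsB
  have e0 : (∫ v in (0 : ℝ)..V, w v * ((a * f v + b * f' v) * e v)) =
      a * (∫ v in (0 : ℝ)..V, w v * (f v * e v)) + b * ∫ v in (0 : ℝ)..V, w v * (f' v * e v) := by
    have c1 : Continuous (fun v => w v * (f v * e v)) := hw.mul (hf.mul he)
    have c2 : Continuous (fun v => w v * (f' v * e v)) := hw.mul (hf'.mul he)
    rw [← gs_lin c1 c2]
    refine intervalIntegral.integral_congr (fun v _ => ?_)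
    show w v * ((a * f v + b * f' v) * e v) = a * (w v * (f v * e v)) + b * (w v * (f' v * e v))
    ring
  have e1 : ∀ u : ℝ → ℝ, Continuous u → (∫ v in (0 : ℝ)..V, u v * (a * f v + b * f' v)) =
      a * (∫ v in (0 : ℝ)..V, u v * f v) + b * ∫ v in (0 : ℝ)..V, u v * f' v := by
    intro u hu
    have c1 : Continuous (fun v => u v * f v) := hu.mul hf
    have c2 : Continuous (fun v => u v * f' v) := hu.mul hf'
    rw [← gs_lin c1 c2]
    refine intervalIntegral.integral_congr (fun v _ => ?_)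
    show u v * (a * f v + b * f' v) = a * (u v * f v) + b * (u v * f' v)
    ring
  rw [e0, e1 u₁ h₁, e1 u₂ h₂]
  ring

private theorem gs_symm {w u₁ u₂ : ℝ → ℝ} {g₁ g₂ V : ℝ} (f e : ℝ → ℝ) :
    gsB w u₁ u₂ g₁ g₂ V f e = gsB w u₁ u₂ g₁ g₂ V e f := by
  unfold gsB
  have e0 : (∫ v in (0 : ℝ)..V, w v * (f v * e v)) = ∫ v in (0 : ℝ)..V, w v * (e v * f v) := by
    refine intervalIntegral.integral_congr (fun v _ => ?_)
    show w v * (f v * e v) = w v * (e v * f v)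
    ring
  rw [e0]
  ring

private theorem gs_q {w u₁ u₂ : ℝ → ℝ} {g₁ g₂ V : ℝ} (f : ℝ → ℝ) :
    qP w u₁ u₂ g₁ g₂ V f = gsB w u₁ u₂ g₁ g₂ V f f := by
  unfold qP gsB
  have e0 : (∫ v in (0 : ℝ)..V, w v * f v ^ 2) = ∫ v in (0 : ℝ)..V, w v * (f v * f v) := by
    refine intervalIntegral.integral_congr (fun v _ => ?_)
    show w v * f v ^ 2 = w v * (f v * f v)
    ring
  rw [e0]
  ring

private theorem gs_nonneg {w u₁ u₂ : ℝ → ℝ} {g₁ g₂ V : ℝ} (hw : ∀ v, 0 < w v) (hV : 0 ≤ V)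
    (hg₁ : 0 ≤ g₁) (hg₂ : 0 ≤ g₂) (f : ℝ → ℝ) : 0 ≤ qP w u₁ u₂ g₁ g₂ V f := by
  unfold qP
  have h0 : 0 ≤ ∫ v in (0 : ℝ)..V, w v * f v ^ 2 :=
    intervalIntegral.integral_nonneg hV (fun v _ => mul_nonneg (hw v).le (sq_nonneg _))
  positivity

private theorem gs_quad {w u₁ u₂ : ℝ → ℝ} {g₁ g₂ V : ℝ} (hw : Continuous w) (h₁ : Continuous u₁)
    (h₂ : Continuous u₂) {f e : ℝ → ℝ} (hf : Continuous f) (he : Continuous e) (a b : ℝ) :
    qP w u₁ u₂ g₁ g₂ V (fun v => a * f v + b * e v) =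
      a ^ 2 * gsB w u₁ u₂ g₁ g₂ V f f + 2 * (a * b) * gsB w u₁ u₂ g₁ g₂ V f e +
        b ^ 2 * gsB w u₁ u₂ g₁ g₂ V e e := by
  have hs : Continuous (fun v => a * f v + b * e v) :=
    (continuous_const.mul hf).add (continuous_const.mul he)
  rw [gs_q, gs_add hw h₁ h₂ hf he hs, gs_symm f, gs_symm e, gs_add hw h₁ h₂ hf he hf,
    gs_add hw h₁ h₂ hf he he, gs_symm e f]
  ring

private theorem gs_lin3 {f g k : ℝ → ℝ} (hf : Continuous f) (hg : Continuous g)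
    (hk : Continuous k) (a b c V : ℝ) :
    (∫ v in (0 : ℝ)..V, (a * f v + b * g v + c * k v)) =
      a * (∫ v in (0 : ℝ)..V, f v) + b * (∫ v in (0 : ℝ)..V, g v) +
        c * ∫ v in (0 : ℝ)..V, k v := by
  have h0 : Continuous (fun v => a * f v + b * g v) :=
    (continuous_const.mul hf).add (continuous_const.mul hg)
  have h1 := gs_lin h0 hk 1 c V
  have h2 := gs_lin hf hg a b V
  simp only [one_mul] at h1
  rw [h1, h2]

private theorem gs_bck3 {w u₁ u₂ : ℝ → ℝ} {g₁ g₂ V : ℝ} (hw : Continuous w)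
    (h₁ : Continuous u₁) (h₂ : Continuous u₂) {f₁ e₁ f₂ e₂ f₃ e₃ : ℝ → ℝ}
    (hf₁ : Continuous f₁) (he₁ : Continuous e₁) (hf₂ : Continuous f₂) (he₂ : Continuous e₂)
    (hf₃ : Continuous f₃) (he₃ : Continuous e₃) (b c : ℝ) :
    BCk w u₁ u₂ g₁ g₂ V (fun v v' => f₁ v * e₁ v' + b * (f₂ v * e₂ v') + c * (f₃ v * e₃ v')) =
      gsB w u₁ u₂ g₁ g₂ V f₁ e₁ + b * gsB w u₁ u₂ g₁ g₂ V f₂ e₂ +
        c * gsB w u₁ u₂ g₁ g₂ V f₃ e₃ := by
  unfold BCk gsB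
  have e0 : (∫ v in (0 : ℝ)..V, w v * (f₁ v * e₁ v + b * (f₂ v * e₂ v) + c * (f₃ v * e₃ v))) =
      1 * (∫ v in (0 : ℝ)..V, w v * (f₁ v * e₁ v)) + b * (∫ v in (0 : ℝ)..V, w v * (f₂ v * e₂ v)) +
        c * ∫ v in (0 : ℝ)..V, w v * (f₃ v * e₃ v) := by
    have c1 : Continuous (fun v => w v * (f₁ v * e₁ v)) := hw.mul (hf₁.mul he₁)
    have c2 : Continuous (fun v => w v * (f₂ v * e₂ v)) := hw.mul (hf₂.mul he₂)
    have c3 : Continuous (fun v => w v * (f₃ v * e₃ v)) := hw.mul (hf₃.mul he₃)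
    rw [← gs_lin3 c1 c2 c3]
    refine intervalIntegral.integral_congr (fun v _ => ?_)
    show w v * (f₁ v * e₁ v + b * (f₂ v * e₂ v) + c * (f₃ v * e₃ v)) =
      1 * (w v * (f₁ v * e₁ v)) + b * (w v * (f₂ v * e₂ v)) + c * (w v * (f₃ v * e₃ v))
    ring
  have e1 : ∀ u : ℝ → ℝ, Continuous u →
      (∫ v in (0 : ℝ)..V, ∫ v' in (0 : ℝ)..V,
        u v * u v' * (f₁ v * e₁ v' + b * (f₂ v * e₂ v') + c * (f₃ v * e₃ v'))) =
      (∫ v in (0 : ℝ)..V, u v * f₁ v) * (∫ v in (0 : ℝ)..V, u v * e₁ v) +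
      b * ((∫ v in (0 : ℝ)..V, u v * f₂ v) * ∫ v in (0 : ℝ)..V, u v * e₂ v) +
      c * ((∫ v in (0 : ℝ)..V, u v * f₃ v) * ∫ v in (0 : ℝ)..V, u v * e₃ v) := by
    intro u hu
    have i1 : ∀ v, (∫ v' in (0 : ℝ)..V,
        u v * u v' * (f₁ v * e₁ v' + b * (f₂ v * e₂ v') + c * (f₃ v * e₃ v'))) =
        (∫ v in (0 : ℝ)..V, u v * e₁ v) * (u v * f₁ v) +
        (b * ∫ v in (0 : ℝ)..V, u v * e₂ v) * (u v * f₂ v) +
        (c * ∫ v in (0 : ℝ)..V, u v * e₃ v) * (u v * f₃ v) := by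
      intro v
      have c1 : Continuous (fun v => u v * e₁ v) := hu.mul he₁
      have c2 : Continuous (fun v => u v * e₂ v) := hu.mul he₂
      have c3 : Continuous (fun v => u v * e₃ v) := hu.mul he₃
      have k := gs_lin3 c1 c2 c3 (u v * f₁ v) (b * (u v * f₂ v)) (c * (u v * f₃ v)) V
      have k2 : (∫ v' in (0 : ℝ)..V,
          u v * u v' * (f₁ v * e₁ v' + b * (f₂ v * e₂ v') + c * (f₃ v * e₃ v'))) =
          ∫ v' in (0 : ℝ)..V, (u v * f₁ v * (u v' * e₁ v') + b * (u v * f₂ v) * (u v' * e₂ v') +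
            c * (u v * f₃ v) * (u v' * e₃ v')) := by
        refine intervalIntegral.integral_congr (fun v' _ => ?_)
        show u v * u v' * (f₁ v * e₁ v' + b * (f₂ v * e₂ v') + c * (f₃ v * e₃ v')) =
          u v * f₁ v * (u v' * e₁ v') + b * (u v * f₂ v) * (u v' * e₂ v') +
            c * (u v * f₃ v) * (u v' * e₃ v')
        ring
      rw [k2, k]
      ring
    have c1 : Continuous (fun v => u v * f₁ v) := hu.mul hf₁
    have c2 : Continuous (fun v => u v * f₂ v) := hu.mul hf₂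
    have c3 : Continuous (fun v => u v * f₃ v) := hu.mul hf₃
    simp only [i1]
    rw [gs_lin3 c1 c2 c3]
    ring
  rw [e0, e1 u₁ h₁, e1 u₂ h₂]
  ring

theorem p_G_split (_h : G_prod) : G_split := by
  intro w u₁ u₂ g₁ g₂ V hw hw0 h₁ h₂ hV hg₁ hg₂ t lam ν ht hlam F A B hF hA hB
  refine ⟨gs_nonneg hw0 hV hg₁ hg₂ _, ?_⟩
  have hAB : Continuous (fun v => A v + B v) := hA.add hB
  have k3 := gs_bck3 (g₁ := g₁) (g₂ := g₂) (V := V) hw h₁ h₂ hF hF hF hAB hA hA (-2)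
    (1 - t * lam ^ 2 + (t - 1) * ν ^ 2)
  have e1 : (fun v v' => F v * F v' - 2 * (F v * (A v' + B v')) +
        (1 - t * lam ^ 2 + (t - 1) * ν ^ 2) * (A v * A v')) =
      (fun v v' => F v * F v' + (-2) * (F v * (fun v => A v + B v) v') +
        (1 - t * lam ^ 2 + (t - 1) * ν ^ 2) * (A v * A v')) := by
    funext v v'
    show F v * F v' - 2 * (F v * (A v' + B v')) +
        (1 - t * lam ^ 2 + (t - 1) * ν ^ 2) * (A v * A v') =
      F v * F v' + (-2) * (F v * (A v' + B v')) +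
        (1 - t * lam ^ 2 + (t - 1) * ν ^ 2) * (A v * A v')
    ring
  rw [e1, k3]
  have q1 : qP w u₁ u₂ g₁ g₂ V (fun v => F v - (A v + B v)) =
      qP w u₁ u₂ g₁ g₂ V (fun v => 1 * F v + (-1) * (fun v => A v + B v) v) := by
    congr 1
    funext v
    show F v - (A v + B v) = 1 * F v + (-1) * (A v + B v)
    ring
  have q2 := gs_quad (g₁ := g₁) (g₂ := g₂) (V := V) hw h₁ h₂ hF hAB 1 (-1)
  have q3 : qP w u₁ u₂ g₁ g₂ V (fun v => B v + lam * A v) =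
      qP w u₁ u₂ g₁ g₂ V (fun v => 1 * B v + lam * A v) := by
    congr 1
    funext v
    rw [one_mul]
  have q4 := gs_quad (g₁ := g₁) (g₂ := g₂) (V := V) hw h₁ h₂ hB hA 1 lam
  have q5 := gs_quad (g₁ := g₁) (g₂ := g₂) (V := V) hw h₁ h₂ hB hA 1 (-ν)
  have q6 := gs_nonneg (V := V) hw0 hV hg₁ hg₂ (u₁ := u₁) (u₂ := u₂)
    (fun v => 1 * B v + (-ν) * A v)
  have q7 : gsB w u₁ u₂ g₁ g₂ V (fun v => A v + B v) (fun v => A v + B v) =
      gsB w u₁ u₂ g₁ g₂ V A A + 2 * gsB w u₁ u₂ g₁ g₂ V B A + gsB w u₁ u₂ g₁ g₂ V B B := by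
    have := gs_quad (g₁ := g₁) (g₂ := g₂) (V := V) hw h₁ h₂ hB hA 1 1
    have e2 : qP w u₁ u₂ g₁ g₂ V (fun v => 1 * B v + 1 * A v) =
        qP w u₁ u₂ g₁ g₂ V (fun v => A v + B v) := by
      congr 1
      funext v
      ring
    rw [e2, gs_q] at this
    rw [this]
    ring
  rw [q1, q2, q3, q4, q7]
  rw [q5] at q6
  have hlam' : t * lam = 1 - (t - 1) * ν := by linarith
  set aa := gsB w u₁ u₂ g₁ g₂ V A A
  set ba := gsB w u₁ u₂ g₁ g₂ V B A
  set bb := gsB w u₁ u₂ g₁ g₂ V B B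
  set ff := gsB w u₁ u₂ g₁ g₂ V F F
  set fs := gsB w u₁ u₂ g₁ g₂ V F (fun v => A v + B v)
  have h6 : 0 ≤ (t - 1) * (1 ^ 2 * bb + 2 * (1 * -ν) * ba + (-ν) ^ 2 * aa) :=
    mul_nonneg (by linarith) q6
  have h7 : t * (2 * (1 * lam) * ba) = 2 * (1 - (t - 1) * ν) * ba := by
    rw [← hlam']; ring
  nlinarith [h6, h7]

end Pool.Agent.MP0016c7.PC
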