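import Mathlib
import Pool.Agent.Lib.MP_0016c7_nt.PC.GStm

set_option autoImplicit false

/-!
Piece `G_sym`: the smoothed Brownian covariance is symmetric.
-/

open Finset MeasureTheory Filter Topology
open scoped Real ContDiff

namespace Pool.Agent.MP0016c7.PC

open Pool.Agent.MP0016c7.Rz

private theorem gsym_hcs (ρ : ℝ → ℝ) (c d : ℝ) (hρ : Bump ρ c d) (a b : ℝ) :
    HasCompactSupport (fun p : ℝ × ℝ =>
      ρ p.1 * ρ p.2 * (max (min (a - p.1) (b - p.2)) 0 - max (a - p.1 + (b - p.2) - 1) 0)) := by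
  refine HasCompactSupport.intro
    ((isCompact_Icc (a := c) (b := d)).prod (isCompact_Icc (a := c) (b := d))) ?_
  rintro ⟨x, y⟩ hp
  by_cases hx : ρ x = 0
  · simp only [hx, zero_mul]
  · by_cases hy : ρ y = 0
    · simp only [hy, mul_zero, zero_mul]
    · exfalso
      apply hp
      have h1 := hρ.supp x hx
      have h2 := hρ.supp y hy
      exact ⟨⟨h1.1.le, h1.2.le⟩, ⟨h2.1.le, h2.2.le⟩⟩

private theorem gsym_int (ρ : ℝ → ℝ) (c d : ℝ) (hρ : Bump ρ c d) (a b : ℝ) :
    Integrable (fun p : ℝ × ℝ =>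
      ρ p.1 * ρ p.2 * (max (min (a - p.1) (b - p.2)) 0 - max (a - p.1 + (b - p.2) - 1) 0))
      ((volume : Measure ℝ).prod (volume : Measure ℝ)) := by
  have hc : Continuous ρ := hρ.smooth.continuous
  have hcont : Continuous (fun p : ℝ × ℝ =>
      ρ p.1 * ρ p.2 * (max (min (a - p.1) (b - p.2)) 0 - max (a - p.1 + (b - p.2) - 1) 0)) := by
    fun_prop
  exact hcont.integrable_of_hasCompactSupport (gsym_hcs ρ c d hρ a b)

theorem p_G_sym : G_sym := by
  intro δ ρ _ hρ a b
  unfold Gam2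
  rw [integral_integral_swap (f := fun x y =>
    ρ x * ρ y * (max (min (a - x) (b - y)) 0 - max (a - x + (b - y) - 1) 0))
    (gsym_int ρ _ _ hρ a b)]
  refine integral_congr_ae (Eventually.of_forall fun y => ?_)
  refine integral_congr_ae (Eventually.of_forall fun x => ?_)
  simp only
  rw [min_comm (a - x) (b - y), add_comm (a - x) (b - y), mul_comm (ρ x) (ρ y)]

end Pool.Agent.MP0016c7.PC
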