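import Mathlib
import Pool.Agent.Lib.MP_0016c7_nt.PC.GStm

set_option autoImplicit false

/-!
Piece `G_xx` of block [G]: the exact Brownian kernel of `XX` on the diagonal and the size bounds.
-/

open Finset MeasureTheory Filter Topology
open scoped Real ContDiff

namespace Pool.Agent.MP0016c7.PC

open Pool.Agent.MP0016c7.Rz

private theorem gxx_mnp (Y Y' a b : ℝ) :
    mnp (min Y a) (min Y' b) = max (min (min Y Y') (min a b)) 0 := by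
  unfold mnp
  congr 1
  simp only [min_assoc]
  congr 1
  rw [← min_assoc, min_comm a Y', min_assoc]

private theorem gxx_expand (Γ : ℝ → ℝ → ℝ) (c₀ c₁ c₂ τ σ e₀ e₁ e₂ τ' σ' Y Y' : ℝ) :
    GG Γ c₀ c₁ c₂ τ σ e₀ e₁ e₂ τ' σ' Y Y' =
      c₀ * (e₀ * Γ Y Y' + e₁ * Γ Y (min Y' τ') + e₂ * Γ Y (min Y' σ')) +
      c₁ * (e₀ * Γ (min Y τ) Y' + e₁ * Γ (min Y τ) (min Y' τ') +
        e₂ * Γ (min Y τ) (min Y' σ')) +
      c₂ * (e₀ * Γ (min Y σ) Y' + e₁ * Γ (min Y σ) (min Y' τ') +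
        e₂ * Γ (min Y σ) (min Y' σ')) := by
  simp only [GG, cmb]

private theorem gxx_one (r t lam κ' τ σ Y Y' : ℝ) (h1 : σ ≤ τ) (h3 : τ ≤ 1 / 2)
    (hY : Y ≤ 1 / 2) (hY' : Y' ≤ 1 / 2) :
    XX mnp r t lam κ' τ σ τ σ Y Y' =
      t * κ' * (max (min (min Y Y') (1 / 2)) 0 - max (min (min Y Y') τ) 0) +
      (r + t * κ' * lam ^ 2) * (max (min (min Y Y') τ) 0 - max (min (min Y Y') (max σ 0)) 0) +
      (max (min (min Y Y') (max σ 0)) 0 - max (min (min Y Y') 0) 0) := by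
  have e00 : mnp Y Y' = max (min (min Y Y') (1 / 2)) 0 := by
    unfold mnp
    rw [min_eq_left (a := min Y Y') (b := 1 / 2) (le_trans (min_le_left _ _) hY)]
  have eY : Y = min Y (1 / 2) := (min_eq_left hY).symm
  have eY' : Y' = min Y' (1 / 2) := (min_eq_left hY').symm
  have hσ : σ ≤ 1 / 2 := h1.trans h3
  have e01 : mnp Y (min Y' τ) = max (min (min Y Y') τ) 0 := by
    have := gxx_mnp Y Y' (1 / 2) τ
    rw [← eY, min_eq_right h3] at this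
    exact this
  have e02 : mnp Y (min Y' σ) = max (min (min Y Y') σ) 0 := by
    have := gxx_mnp Y Y' (1 / 2) σ
    rw [← eY, min_eq_right hσ] at this
    exact this
  have e10 : mnp (min Y τ) Y' = max (min (min Y Y') τ) 0 := by
    have := gxx_mnp Y Y' τ (1 / 2)
    rw [← eY', min_eq_left h3] at this
    exact this
  have e20 : mnp (min Y σ) Y' = max (min (min Y Y') σ) 0 := by
    have := gxx_mnp Y Y' σ (1 / 2)
    rw [← eY', min_eq_left hσ] at this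
    exact this
  have e11 : mnp (min Y τ) (min Y' τ) = max (min (min Y Y') τ) 0 := by
    rw [gxx_mnp, min_self]
  have e12 : mnp (min Y τ) (min Y' σ) = max (min (min Y Y') σ) 0 := by
    rw [gxx_mnp, min_eq_right h1]
  have e21 : mnp (min Y σ) (min Y' τ) = max (min (min Y Y') σ) 0 := by
    rw [gxx_mnp, min_eq_left h1]
  have e22 : mnp (min Y σ) (min Y' σ) = max (min (min Y Y') σ) 0 := by
    rw [gxx_mnp, min_self]
  have es : max (min (min Y Y') (max σ 0)) 0 = max (min (min Y Y') σ) 0 := by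
    rcases le_total σ 0 with h | h
    · rw [max_eq_right h, max_eq_right (min_le_right _ _),
        max_eq_right ((min_le_right _ _).trans h)]
    · rw [max_eq_left h]
  have ez : max (min (min Y Y') 0) 0 = 0 := max_eq_right (min_le_right _ _)
  simp only [XX, gxx_expand, e00, e01, e02, e10, e20, e11, e12, e21, e22, es, ez]
  ring

private theorem gxx_lin (r t lam κ' τ σ τ' σ' Y Y' : ℝ) (Γ Γ' : ℝ → ℝ → ℝ) :
    XX Γ r t lam κ' τ σ τ' σ' Y Y' - XX Γ' r t lam κ' τ σ τ' σ' Y Y' =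
      XX (fun a b => Γ a b - Γ' a b) r t lam κ' τ σ τ' σ' Y Y' := by
  simp only [XX, gxx_expand]
  ring

private theorem gxx_three (a₀ a₁ a₂ x₀ x₁ x₂ ε : ℝ) (h0 : |x₀| ≤ ε) (h1 : |x₁| ≤ ε)
    (h2 : |x₂| ≤ ε) :
    |a₀ * x₀ + a₁ * x₁ + a₂ * x₂| ≤ (|a₀| + |a₁| + |a₂|) * ε := by
  have t1 : |a₀ * x₀ + a₁ * x₁ + a₂ * x₂| ≤ |a₀ * x₀| + |a₁ * x₁| + |a₂ * x₂| :=
    (abs_add_le _ _).trans (add_le_add (abs_add_le _ _) le_rfl)
  have t2 : |a₀ * x₀| ≤ |a₀| * ε := by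
    rw [abs_mul]
    exact mul_le_mul_of_nonneg_left h0 (abs_nonneg _)
  have t3 : |a₁ * x₁| ≤ |a₁| * ε := by
    rw [abs_mul]
    exact mul_le_mul_of_nonneg_left h1 (abs_nonneg _)
  have t4 : |a₂ * x₂| ≤ |a₂| * ε := by
    rw [abs_mul]
    exact mul_le_mul_of_nonneg_left h2 (abs_nonneg _)
  calc |a₀ * x₀ + a₁ * x₁ + a₂ * x₂| ≤ |a₀| * ε + |a₁| * ε + |a₂| * ε := by linarith
    _ = (|a₀| + |a₁| + |a₂|) * ε := by ring

private theorem gxx_GG (Γ : ℝ → ℝ → ℝ) (c₀ c₁ c₂ τ σ e₀ e₁ e₂ τ' σ' Y Y' ε : ℝ)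
    (hY : Y ≤ 1 / 2) (hY' : Y' ≤ 1 / 2)
    (h : ∀ a ≤ (1 / 2 : ℝ), ∀ b ≤ (1 / 2 : ℝ), |Γ a b| ≤ ε) :
    |GG Γ c₀ c₁ c₂ τ σ e₀ e₁ e₂ τ' σ' Y Y'| ≤
      (|c₀| + |c₁| + |c₂|) * ((|e₀| + |e₁| + |e₂|) * ε) := by
  have a1 : min Y τ ≤ 1 / 2 := (min_le_left _ _).trans hY
  have a2 : min Y σ ≤ 1 / 2 := (min_le_left _ _).trans hY
  have b1 : min Y' τ' ≤ 1 / 2 := (min_le_left _ _).trans hY'
  have b2 : min Y' σ' ≤ 1 / 2 := (min_le_left _ _).trans hY'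
  rw [gxx_expand]
  exact gxx_three _ _ _ _ _ _ _
    (gxx_three _ _ _ _ _ _ _ (h _ hY _ hY') (h _ hY _ b1) (h _ hY _ b2))
    (gxx_three _ _ _ _ _ _ _ (h _ a1 _ hY') (h _ a1 _ b1) (h _ a1 _ b2))
    (gxx_three _ _ _ _ _ _ _ (h _ a2 _ hY') (h _ a2 _ b1) (h _ a2 _ b2))

private theorem gxx_bound (Γ : ℝ → ℝ → ℝ) (r t lam κ' τ σ τ' σ' Y Y' ε : ℝ)
    (hr : 0 ≤ r) (ht : 0 ≤ t) (hκ : 0 ≤ κ') (hl : 0 ≤ lam) (hl1 : lam ≤ 1)
    (hY : Y ≤ 1 / 2) (hY' : Y' ≤ 1 / 2)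
    (h : ∀ a ≤ (1 / 2 : ℝ), ∀ b ≤ (1 / 2 : ℝ), |Γ a b| ≤ ε) :
    |XX Γ r t lam κ' τ σ τ' σ' Y Y'| ≤ (5 + 4 * r + 4 * t * κ') * ε := by
  have g1 := gxx_GG Γ 0 0 1 τ σ 0 0 1 τ' σ' Y Y' ε hY hY' h
  have g2 := gxx_GG Γ 0 0 1 τ σ 1 0 (-1) τ' σ' Y Y' ε hY hY' h
  have g3 := gxx_GG Γ 0 1 (-1) τ σ 0 1 (-1) τ' σ' Y Y' ε hY hY' h
  have g4 := gxx_GG Γ 1 (lam - 1) (-lam) τ σ 1 (lam - 1) (-lam) τ' σ' Y Y' ε hY hY' h
  have q1 : |lam - 1| = 1 - lam := by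
    rw [abs_sub_comm, abs_of_nonneg (by linarith)]
  have q2 : |(-lam)| = lam := by
    rw [abs_neg, abs_of_nonneg hl]
  rw [q1, q2] at g4
  simp only [abs_neg, abs_zero, abs_one] at g1 g2 g3 g4
  have t1 : |2 * GG Γ 0 0 1 τ σ 1 0 (-1) τ' σ' Y Y'| ≤ 4 * ε := by
    rw [abs_mul, abs_of_pos (by norm_num : (0 : ℝ) < 2)]
    linarith
  have t2 : |r * GG Γ 0 1 (-1) τ σ 0 1 (-1) τ' σ' Y Y'| ≤ r * (4 * ε) := by
    rw [abs_mul, abs_of_nonneg hr]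
    exact mul_le_mul_of_nonneg_left (by linarith) hr
  have t3 : |t * κ' * GG Γ 1 (lam - 1) (-lam) τ σ 1 (lam - 1) (-lam) τ' σ' Y Y'| ≤
      t * κ' * (4 * ε) := by
    rw [abs_mul, abs_of_nonneg (mul_nonneg ht hκ)]
    exact mul_le_mul_of_nonneg_left (by linarith) (mul_nonneg ht hκ)
  unfold XX
  have s1 : ∀ a b c d : ℝ, |a + b + c + d| ≤ |a| + |b| + |c| + |d| := fun a b c d =>
    (abs_add_le _ _).trans (add_le_add ((abs_add_le _ _).trans (add_le_add (abs_add_le _ _) le_rfl))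
      le_rfl)
  refine (s1 _ _ _ _).trans ?_
  calc _ ≤ ε + 4 * ε + r * (4 * ε) + t * κ' * (4 * ε) := by
        gcongr
        linarith
    _ = (5 + 4 * r + 4 * t * κ') * ε := by ring

/-- `G_xx`. -/
theorem p_G_xx : G_xx := by
  refine ⟨?_, ?_, ?_⟩
  · intro r t lam κ' τ σ Y Y' h1 _ h3 hY hY'
    exact gxx_one r t lam κ' τ σ Y Y' h1 h3 hY hY'
  · intro r t lam κ' τ σ τ' σ' Y Y' ε Γ Γ' hr ht hκ hl hl1 hY hY' h
    rw [gxx_lin]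
    exact gxx_bound _ r t lam κ' τ σ τ' σ' Y Y' ε hr ht hκ hl hl1 hY hY' h
  · intro r t lam κ' τ σ τ' σ' Y Y' hr ht hκ hl hl1 hY hY'
    refine gxx_bound _ r t lam κ' τ σ τ' σ' Y Y' (1 / 2) hr ht hκ hl hl1 hY hY' ?_
    intro a ha b hb
    unfold mnp
    rw [abs_of_nonneg (le_max_right _ _)]
    exact max_le ((min_le_left _ _).trans ha) (by norm_num)

end Pool.Agent.MP0016c7.PC
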