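import Mathlib
import Pool.Agent.Lib.MP_0016c7_nt.PC.GStm
import Pool.Agent.Lib.MP_0016c7_nt.PC.G.G_prod
import Pool.Agent.Lib.MP_0016c7_nt.PC.G.G_lin
import Pool.Agent.Lib.MP_0016c7_nt.PC.G.G_split
import Pool.Agent.Lib.MP_0016c7_nt.PC.G.G_gam
import Pool.Agent.Lib.MP_0016c7_nt.PC.G.G_lev
import Pool.Agent.Lib.MP_0016c7_nt.PC.G.G_xx
import Pool.Agent.Lib.MP_0016c7_nt.PC.G.G_en
import Pool.Agent.Lib.MP_0016c7_nt.PC.G.G_mean
import Pool.Agent.Lib.MP_0016c7_nt.PC.G.G_ms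
import Pool.Agent.Lib.MP_0016c7_nt.PC.G.G_sym
import Pool.Agent.Lib.MP_0016c7_nt.PC.G.G_fin
import Pool.Agent.Lib.MP_0016c7_nt.PC.G.G_finpt

set_option autoImplicit false

/-!
Block [G]: the core inequality and its pointwise version.
-/

namespace Pool.Agent.MP0016c7.PC

theorem jf_core : JF_core :=
  p_G_fin p_G_prod p_G_lin (p_G_split p_G_prod) p_G_gam (p_G_en p_G_lin p_G_gam p_G_lev p_G_xx)
    p_G_mean (p_G_ms p_G_gam p_G_sym) p_G_sym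

theorem jf_pt : JF_pt :=
  p_G_finpt p_G_xx p_G_gam p_G_mean (p_G_ms p_G_gam p_G_sym) p_G_sym

end Pool.Agent.MP0016c7.PC
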