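import Mathlib
import Pool.Agent.Lib.MP_0016c7_nt.PC.GStm

set_option autoImplicit false

open Finset MeasureTheory Filter Topology
open scoped Real ContDiff

namespace Pool.Agent.MP0016c7.PC

open Pool.Agent.MP0016c7.Rz

private lemma ws_mono_gms (J : ℕ) (δ : ℝ) (ws : ℕ → ℝ) (hδ : 0 < δ)
    (hws : ∀ k, k + 1 < J → ws k + δ ≤ ws (k + 1)) :
    ∀ n k, k + n < J → ws k ≤ ws (k + n) := by
  intro n
  induction n with
  | zero => intro k _; simp
  | succ n ih =>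
    intro k hk
    have h1 := ih k (by omega)
    have h2 := hws (k + n) (by omega)
    have h3 : k + (n + 1) = k + n + 1 := by ring
    rw [h3]
    linarith

private lemma abs_le_one_add_sq (x : ℝ) : |x| ≤ 1 + x ^ 2 := by
  have h := sq_nonneg (|x| - 1)
  have h2 : |x| ^ 2 = x ^ 2 := sq_abs x
  have h3 := abs_nonneg x
  nlinarith

theorem p_G_ms (h1 : G_gam) (h2 : G_sym) : G_ms := by
  intro J δ κ K ws cs σs hδ hδ' hκ hws0 hws hcs hlen hσ hσ' ρ hρ hρ0 hρ1 mm Sm hSm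
  clear h2
  obtain ⟨_, hclose, hzero⟩ := h1 δ ρ hδ hρ hρ0 hρ1
  set B : ℝ := ∑ i ∈ range J, (|mm i| + κ * |K| * (mm i ^ 2 + |Sm i i|)) with hB
  have hb0 : ∀ i, 0 ≤ |mm i| + κ * |K| * (mm i ^ 2 + |Sm i i|) := by
    intro i; positivity
  have hbB : ∀ i < J, |mm i| + κ * |K| * (mm i ^ 2 + |Sm i i|) ≤ B := by
    intro i hi
    exact Finset.single_le_sum (f := fun i => |mm i| + κ * |K| * (mm i ^ 2 + |Sm i i|))
      (fun i _ => hb0 i) (Finset.mem_range.2 hi)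
  have hB0 : 0 ≤ B := Finset.sum_nonneg (fun i _ => hb0 i)
  have hwspos : ∀ k < J, 0 < ws k := by
    intro k hk
    have := ws_mono_gms J δ ws hδ hws k 0 (by omega)
    rw [zero_add] at this
    linarith
  have hwsle : ∀ k < J, ws k ≤ ws (J - 1) := by
    intro k hk
    have := ws_mono_gms J δ ws hδ hws (J - 1 - k) k (by omega)
    have h3 : k + (J - 1 - k) = J - 1 := by omega
    rwa [h3] at this
  refine ⟨|K| + 2 + 2 * B, by have := abs_nonneg K; linarith, ?_⟩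
  intro I κ' ε₁ hI hIK hκ' hκκ hε hε1 S cf cf' T hMD
  have hC1 : (1 : ℝ) ≤ |K| + 2 + 2 * B := by have := abs_nonneg K; linarith
  have hle : ε₁ ≤ (|K| + 2 + 2 * B) * ε₁ := by nlinarith
  have hIK' : I ≤ |K| := hIK.trans (le_abs_self K)
  have hms : ∀ i < J, ∀ j < J, ∀ Y₁ ∈ Set.Icc (-δ) (σs i), ∀ Y₂ ∈ Set.Icc (-δ) (1 / 2 : ℝ),
      |(∑ d ∈ S, cf d * (T i d Y₁ * T j d Y₂)) -
        I * (mm i * mm j + Sm i j * Gam2 ρ ρ Y₁ Y₂)| ≤ (|K| + 2 + 2 * B) * ε₁ := by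
    intro i hi j hj Y₁ hY₁ Y₂ hY₂
    rcases hσ' i hi with hcase | hcase
    · have hY : Y₁ = -δ := le_antisymm (by rw [hcase] at hY₁; exact hY₁.2) hY₁.1
      subst hY
      have hG0 : Gam2 ρ ρ (-δ) Y₂ = 0 := (hzero (-δ) le_rfl Y₂ hY₂.2).1
      rw [hG0, mul_zero, add_zero]
      have hm1 := hMD.m1 j hj Y₂ hY₂
      have hdet := hMD.det i hi
      have hG : |Gam2 ρ ρ Y₂ Y₂| ≤ 1 := by
        have h := hclose Y₂ hY₂.2 Y₂ hY₂.2
        have hm : mnp Y₂ Y₂ = max Y₂ 0 := by unfold mnp; rw [min_self]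
        have hm1 : 0 ≤ mnp Y₂ Y₂ := by rw [hm]; exact le_max_right _ _
        have hm2 : mnp Y₂ Y₂ ≤ 1 / 2 := by
          rw [hm]; exact max_le hY₂.2 (by norm_num)
        rw [abs_le] at h ⊢
        constructor <;> linarith [h.1, h.2]
      have hm2' := hMD.m2' j hj j hj Y₂ hY₂ Y₂ hY₂
      have hsq : ∑ d ∈ S, cf' d * (T j d Y₂ * T j d Y₂) ≤
          κ * |K| * (mm j ^ 2 + |Sm j j|) + 1 := by
        have h3 := (abs_le.1 hm2').2
        have h4 : mm j * mm j + Sm j j * Gam2 ρ ρ Y₂ Y₂ ≤ mm j ^ 2 + |Sm j j| := by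
          have h5 : Sm j j * Gam2 ρ ρ Y₂ Y₂ ≤ |Sm j j| := by
            calc Sm j j * Gam2 ρ ρ Y₂ Y₂ ≤ |Sm j j * Gam2 ρ ρ Y₂ Y₂| := le_abs_self _
              _ = |Sm j j| * |Gam2 ρ ρ Y₂ Y₂| := abs_mul _ _
              _ ≤ |Sm j j| * 1 := mul_le_mul_of_nonneg_left hG (abs_nonneg _)
              _ = |Sm j j| := mul_one _
          nlinarith
        have h6 : κ' * I * (mm j * mm j + Sm j j * Gam2 ρ ρ Y₂ Y₂) ≤
            κ' * I * (mm j ^ 2 + |Sm j j|) :=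
          mul_le_mul_of_nonneg_left h4 (mul_nonneg hκ' hI)
        have h7 : κ' * I ≤ κ * |K| := mul_le_mul hκκ hIK' hI hκ
        have h8 : κ' * I * (mm j ^ 2 + |Sm j j|) ≤ κ * |K| * (mm j ^ 2 + |Sm j j|) :=
          mul_le_mul_of_nonneg_right h7 (by positivity)
        linarith
      have hcf : ∑ d ∈ S, cf d ≤ |K| + 1 := by
        have h3 := (abs_le.1 hMD.m0).2
        linarith
      have hkey : |∑ d ∈ S, cf d * ((T i d (-δ) - mm i) * T j d Y₂)| ≤
          ε₁ * (|K| + 1 + (κ * |K| * (mm j ^ 2 + |Sm j j|) + 1)) := by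
        calc |∑ d ∈ S, cf d * ((T i d (-δ) - mm i) * T j d Y₂)|
            ≤ ∑ d ∈ S, |cf d * ((T i d (-δ) - mm i) * T j d Y₂)| := Finset.abs_sum_le_sum_abs _ _
          _ ≤ ∑ d ∈ S, ε₁ * (cf d + cf' d * (T j d Y₂ * T j d Y₂)) := by
              refine Finset.sum_le_sum fun d hd => ?_
              obtain ⟨hc0, hc1⟩ := hMD.nn d hd
              rw [abs_mul, abs_mul, abs_of_nonneg hc0]
              have h9 := hdet d hd
              have h10 := abs_le_one_add_sq (T j d Y₂)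
              have h11 : |T i d (-δ) - mm i| * |T j d Y₂| ≤ ε₁ * (1 + T j d Y₂ ^ 2) :=
                mul_le_mul h9 h10 (abs_nonneg _) hε.le
              have h12 : cf d * (|T i d (-δ) - mm i| * |T j d Y₂|) ≤
                  cf d * (ε₁ * (1 + T j d Y₂ ^ 2)) := mul_le_mul_of_nonneg_left h11 hc0
              have h13 : cf d * T j d Y₂ ^ 2 ≤ cf' d * T j d Y₂ ^ 2 :=
                mul_le_mul_of_nonneg_right hc1 (sq_nonneg _)
              have h14 : ε₁ * (cf d * T j d Y₂ ^ 2) ≤ ε₁ * (cf' d * T j d Y₂ ^ 2) :=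
                mul_le_mul_of_nonneg_left h13 hε.le
              nlinarith
          _ = ε₁ * ((∑ d ∈ S, cf d) + ∑ d ∈ S, cf' d * (T j d Y₂ * T j d Y₂)) := by
              rw [← Finset.mul_sum, Finset.sum_add_distrib]
          _ ≤ ε₁ * (|K| + 1 + (κ * |K| * (mm j ^ 2 + |Sm j j|) + 1)) :=
              mul_le_mul_of_nonneg_left (add_le_add hcf hsq) hε.le
      have hdec : (∑ d ∈ S, cf d * (T i d (-δ) * T j d Y₂)) - I * (mm i * mm j) =
          (∑ d ∈ S, cf d * ((T i d (-δ) - mm i) * T j d Y₂)) +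
            mm i * ((∑ d ∈ S, cf d * T j d Y₂) - I * mm j) := by
        have h15 : ∑ d ∈ S, cf d * (T i d (-δ) * T j d Y₂) =
            (∑ d ∈ S, cf d * ((T i d (-δ) - mm i) * T j d Y₂)) +
              mm i * ∑ d ∈ S, cf d * T j d Y₂ := by
          rw [Finset.mul_sum, ← Finset.sum_add_distrib]
          exact Finset.sum_congr rfl fun d _ => by ring
        rw [h15]; ring
      rw [hdec]
      have h16 : |mm i * ((∑ d ∈ S, cf d * T j d Y₂) - I * mm j)| ≤ |mm i| * ε₁ := by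
        rw [abs_mul]
        exact mul_le_mul_of_nonneg_left hm1 (abs_nonneg _)
      have h17 : |mm i| ≤ B := by
        have h18 := hbB i hi
        have h19 : 0 ≤ κ * |K| * (mm i ^ 2 + |Sm i i|) := by positivity
        linarith
      have h20 : κ * |K| * (mm j ^ 2 + |Sm j j|) ≤ B := by
        have h18 := hbB j hj
        have h19 := abs_nonneg (mm j)
        linarith
      calc |(∑ d ∈ S, cf d * ((T i d (-δ) - mm i) * T j d Y₂)) +
            mm i * ((∑ d ∈ S, cf d * T j d Y₂) - I * mm j)|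
          ≤ |∑ d ∈ S, cf d * ((T i d (-δ) - mm i) * T j d Y₂)| +
            |mm i * ((∑ d ∈ S, cf d * T j d Y₂) - I * mm j)| := abs_add_le _ _
        _ ≤ ε₁ * (|K| + 1 + (κ * |K| * (mm j ^ 2 + |Sm j j|) + 1)) + |mm i| * ε₁ :=
            add_le_add hkey h16
        _ ≤ ε₁ * (|K| + 1 + (B + 1)) + B * ε₁ := by
            have h21 : ε₁ * (|K| + 1 + (κ * |K| * (mm j ^ 2 + |Sm j j|) + 1)) ≤
                ε₁ * (|K| + 1 + (B + 1)) := mul_le_mul_of_nonneg_left (by linarith) hε.le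
            have h22 : |mm i| * ε₁ ≤ B * ε₁ := mul_le_mul_of_nonneg_right h17 hε.le
            linarith
        _ = (|K| + 2 + 2 * B) * ε₁ := by ring
    · have hY1 : Y₁ ≤ 1 / 2 := by
        have h3 := (hσ i hi).2
        have h4 := hwspos i hi
        have h5 := hY₁.2
        linarith
      refine (hMD.m2 i hi j hj Y₁ ⟨hY₁.1, hY1⟩ Y₂ hY₂ ?_).trans hle
      have h3 := hY₁.2
      have h4 := hY₂.2
      have h5 := hwsle j hj
      linarith
  refine ⟨hMD.nn, hMD.ct, hMD.m0.trans hle, fun k hk Y hY => (hMD.m1 k hk Y hY).trans hle,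
    ?_, ?_, fun i hi j hj Y₁ hY₁ Y₂ hY₂ => (hMD.m2' i hi j hj Y₁ hY₁ Y₂ hY₂).trans hle⟩
  · intro i hi j hj Y₁ hY₁ Y₂ hY₂
    have h3 := hwspos i hi
    have h4 := hwspos j hj
    refine (hMD.m2 i hi j hj Y₁ ⟨hY₁.1, by linarith [hY₁.2]⟩ Y₂ ⟨hY₂.1, by linarith [hY₂.2]⟩
      ?_).trans hle
    linarith [hY₁.2, hY₂.2]
  · intro i hi j hj Y₁ hY₁ Y₂ hY₂
    refine ⟨hms i hi j hj Y₁ hY₁ Y₂ hY₂, ?_⟩
    have h3 : ∑ d ∈ S, cf d * (T j d Y₂ * T i d Y₁) = ∑ d ∈ S, cf d * (T i d Y₁ * T j d Y₂) :=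
      Finset.sum_congr rfl fun d _ => by ring
    rw [h3]
    exact hms i hi j hj Y₁ hY₁ Y₂ hY₂

end Pool.Agent.MP0016c7.PC
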